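import Pool.Agent.Helper1.TP.Goals
import Pool.Agent.Helper65.FS.Pat

/-!
# The weight of the bad patterns (project FS, MP_75608d_al)
-/

set_option autoImplicit false

namespace Pool.Agent.Helper27.FS

open Finset Pool.Agent.Helper13.FS Pool.Agent.Helper1.TP
open Pool.Agent.Helper4.FS (World Lt)

variable {q N : ℕ}

/-- the bad patterns: fewer than `N0` fresh letters or a long shifted matching -/
def BadG (N0 P : ℕ) (g : Fin N → Option (Lt q)) : Prop :=
  ¬ (N0 ≤ nl (extG g) N ∧ NoShift (extG g) N P)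

theorem nl_ext (g : Fin N → Option (Lt q)) :
    nl (extG g) N + (univ.filter fun i => g i = none).card = N := by
  have h1 : nl (extG g) N = (univ.filter fun i : Fin N => g i ≠ none).card := by
    unfold nl
    symm
    apply card_bij (fun (i : Fin N) _ => (i : ℕ))
    · intro i hi
      rw [mem_filter] at hi ⊢
      refine ⟨mem_range.2 i.2, ?_⟩
      unfold extG
      rw [dif_pos i.2]
      exact hi.2
    · intro i _ j _ h
      exact Fin.ext h
    · intro v hv
      rw [mem_filter, mem_range] at hv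
      refine ⟨⟨v, hv.1⟩, ?_, rfl⟩
      rw [mem_filter]
      refine ⟨mem_univ _, ?_⟩
      have h2 := hv.2
      unfold extG at h2
      rw [dif_pos hv.1] at h2
      exact h2
  rw [h1]
  have h2 := card_filter_add_card_filter_not (s := (univ : Finset (Fin N)))
    (p := fun i => g i = none)
  rw [card_univ, Fintype.card_fin] at h2
  have h3 : (univ.filter fun i : Fin N => g i ≠ none) = univ.filter fun i => ¬ g i = none := rfl
  rw [h3]
  omega

theorem shifted_of_not (P : ℕ) (g : Fin N → Option (Lt q)) (h : ¬ NoShift (extG g) N P) :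
    Pool.Agent.Helper65.FS.Shifted none (P + 1) g := by
  unfold NoShift at h
  push Not at h
  obtain ⟨I, φ, hI, hφ, h1, h2⟩ := h
  obtain rfl | hN : N = 0 ∨ 0 < N := Nat.eq_zero_or_pos N
  · exfalso
    have : I = ∅ := by
      rw [← subset_empty]
      simpa using hI
    rw [this, card_empty] at h2
    omega
  refine ⟨univ.filter fun i : Fin N => (i : ℕ) ∈ I,
    fun i => if h : φ i < N then ⟨φ i, h⟩ else i, ?_, ?_, ?_⟩
  · have h3 : (univ.filter fun i : Fin N => (i : ℕ) ∈ I).card = I.card := by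
      apply card_bij (fun (i : Fin N) _ => (i : ℕ))
      · intro i hi
        exact (mem_filter.1 hi).2
      · intro i _ j _ h
        exact Fin.ext h
      · intro v hv
        exact ⟨⟨v, mem_range.1 (hI hv)⟩, mem_filter.2 ⟨mem_univ _, hv⟩, rfl⟩
    rw [h3]
    exact h2
  · intro i hi j hj hij
    have hi' := (mem_filter.1 (mem_coe.1 hi)).2
    have hj' := (mem_filter.1 (mem_coe.1 hj)).2
    simp only [dif_pos (h1 _ hi').1, dif_pos (h1 _ hj').1]
    exact hφ hi' hj' hij
  · intro i hi
    have hi' := (mem_filter.1 hi).2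
    obtain ⟨h3, h4, h5, h6⟩ := h1 _ hi'
    have e1 : extG g (i : ℕ) = g i := by
      unfold extG
      rw [dif_pos i.2]
    have e2 : extG g (φ i) = g ⟨φ i, h3⟩ := by
      unfold extG
      rw [dif_pos h3]
    rw [e1] at h5 h6
    rw [e2] at h6
    simp only [dif_pos h3]
    refine ⟨fun h => h4 (congrArg Fin.val h), h5, h6⟩

open Classical in
/-- the weight of the bad patterns -/
theorem badG_le (hq : 0 < q) {θ : ℝ} (h0 : 0 < θ) (h1 : θ ≤ 1 / 2) (N0 P : ℕ) (hN0 : N0 ≤ N) :
    ∑ g : Fin N → Option (Lt q) with BadG N0 P g, ∏ j, lwt (Fin q) θ (g j) ≤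
      2 ^ N * θ ^ (N - N0 + 1) + 4 ^ N * ((1 - θ) / (2 * q)) ^ (P + 1) := by
  have : Nonempty (Fin q) := ⟨⟨0, hq⟩⟩
  have hp : ∀ (_k : Fin N) o, 0 ≤ lwt (Fin q) θ o := fun _ o => lwt_nn _ h0.le (by linarith) o
  have hs : ∀ (_k : Fin N), ∑ o, lwt (Fin q) θ o = 1 := fun _ => lwt_sum _ h0.le (by linarith)
  have hq' : (0 : ℝ) < q := by exact_mod_cast hq
  have h2 := Pool.Agent.Helper65.FS.pat (N := N) (fun _ => lwt (Fin q) θ) hp hs none
    (ρ := (1 - θ) / (2 * q)) (div_nonneg (by linarith) (by positivity)) (by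
      intro _ o ho
      rcases o with _ | l
      · exact absurd rfl ho
      · show (1 - θ) / (2 * (Fintype.card (Fin q) : ℝ)) ≤ _
        rw [Fintype.card_fin]) (P + 1)
  have h3 := Pool.Agent.Helper65.FS.lazy_le (N := N) (fun _ => lwt (Fin q) θ) hp hs none
    (lam := θ) h0.le (fun _ => le_rfl) (N - N0 + 1)
  have h4 : (univ.filter fun g : Fin N → Option (Lt q) => BadG N0 P g) ⊆
      (univ.filter fun g : Fin N → Option (Lt q) =>
        N - N0 + 1 ≤ (univ.filter fun i => g i = none).card) ∪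
      (univ.filter fun g : Fin N → Option (Lt q) =>
        Pool.Agent.Helper65.FS.Shifted none (P + 1) g) := by
    intro g hg
    rw [mem_filter] at hg
    rw [mem_union, mem_filter, mem_filter]
    by_cases h5 : N0 ≤ nl (extG g) N
    · right
      refine ⟨mem_univ _, shifted_of_not P g fun h6 => hg.2 ⟨h5, h6⟩⟩
    · left
      refine ⟨mem_univ _, ?_⟩
      have := nl_ext g
      omega
  have h5 : ∀ g : Fin N → Option (Lt q), 0 ≤ ∏ j, lwt (Fin q) θ (g j) :=
    fun g => prod_nonneg fun j _ => hp j _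
  calc _ ≤ ∑ g ∈ (univ.filter fun g : Fin N → Option (Lt q) =>
        N - N0 + 1 ≤ (univ.filter fun i => g i = none).card) ∪
      (univ.filter fun g : Fin N → Option (Lt q) =>
        Pool.Agent.Helper65.FS.Shifted none (P + 1) g), ∏ j, lwt (Fin q) θ (g j) :=
        sum_le_sum_of_subset_of_nonneg h4 fun g _ _ => h5 g
    _ ≤ _ := by
        refine (sum_union_inter_le h5).trans ?_
        exact add_le_add h3 h2
where
  sum_union_inter_le {S T : Finset (Fin N → Option (Lt q))} {F : (Fin N → Option (Lt q)) → ℝ}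
      (hF : ∀ g, 0 ≤ F g) : ∑ g ∈ S ∪ T, F g ≤ ∑ g ∈ S, F g + ∑ g ∈ T, F g := by
    have h := sum_union_inter (s₁ := S) (s₂ := T) (f := F)
    have h2 : 0 ≤ ∑ g ∈ S ∩ T, F g := sum_nonneg fun g _ => hF g
    linarith

end Pool.Agent.Helper27.FS
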