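import Pool.Agent.Helper27.FS.MidLevel
import Pool.Agent.Helper38.FS.Middle
import Pool.Agent.Helper3.FS.Glue
import Pool.Agent.Helper6.H.Main

/-! Project FS (MP_75608d_al), the middle levels `n ^ 0.95 ≤ s ≤ n / (eps log n)`: the statement with
exceptional sets, from `mid_level` (one level) and `s_mid` (START of the middle levels). -/

set_option autoImplicit false

namespace Pool.Agent.Helper27.FS

open Equiv Filter Topology
open Pool.Agent.Helper38.FS (rp Win S_MID s_mid rp_anti_level rp_anti_time)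
open Pool.Agent.Helper3.AK (Alt TupleGap)
open Pool.Agent.Helper3.FS (S_EXC S_PART inter_frac frac_le_one part_of_exc)

/-- the numbers of one level: from the bound of `S_MID` at a level `r ≤ s` of comparable size -/
theorem mid_window {eps : ℝ} (heps : 0 < eps) : ∀ᶠ n : ℕ in atTop, ∀ s : ℕ,
    (n : ℝ) ^ (0.95 : ℝ) ≤ s → eps * Real.log n * s ≤ n →
    ∃ r : ℕ, Win 10000 0.08 n r ∧ r ≤ s ∧ min 1 (eps / 20000) * s ≤ r := by
  have hlog : Tendsto (fun n : ℕ => Real.log (n : ℝ)) atTop atTop :=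
    Real.tendsto_log_atTop.comp tendsto_natCast_atTop_atTop
  have h1 : ∀ᶠ n : ℕ in atTop, Real.log (n : ℝ) ≤ (n : ℝ) ^ (0.01 : ℝ) := by
    have := (isLittleO_log_rpow_atTop (show (0 : ℝ) < 0.01 by norm_num)).bound
      (show (0 : ℝ) < 1 by norm_num)
    have h2 := (tendsto_natCast_atTop_atTop (R := ℝ)).eventually this
    filter_upwards [h2, eventually_ge_atTop 1] with n hn hn1
    have hn1' : (1 : ℝ) ≤ n := by exact_mod_cast hn1
    rw [Real.norm_of_nonneg (Real.log_nonneg hn1'), Real.norm_of_nonneg (by positivity),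
      one_mul] at hn
    exact hn
  have h2 : ∀ᶠ n : ℕ in atTop, (20000 : ℝ) ≤ (n : ℝ) ^ (0.01 : ℝ) :=
    ((tendsto_rpow_atTop (by norm_num)).comp tendsto_natCast_atTop_atTop).eventually_ge_atTop _
  filter_upwards [h1, h2, hlog.eventually_ge_atTop 1, eventually_ge_atTop 1] with n h1 h2 h3 hn
    s hs1 hs2
  have hn1 : (1 : ℝ) ≤ n := by exact_mod_cast hn
  have hn0 : (0 : ℝ) < n := by linarith
  have hs0 : (0 : ℝ) < s := lt_of_lt_of_le (Real.rpow_pos_of_pos hn0 _) hs1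
  have e1 : (n : ℝ) ^ (0.95 : ℝ) * (n : ℝ) ^ (0.05 : ℝ) = n := by
    rw [← Real.rpow_add hn0]; norm_num
  have e2 : (n : ℝ) ^ (0.05 : ℝ) ≤ (n : ℝ) ^ (0.08 : ℝ) :=
    Real.rpow_le_rpow_of_exponent_le hn1 (by norm_num)
  have hs3 : 1 ≤ s := by
    have : (0 : ℝ) < s := hs0
    exact_mod_cast this
  by_cases hc : 10000 * Real.log n ≤ (n : ℝ) / s
  · refine ⟨s, ⟨hs3, hc, ?_⟩, le_rfl, ?_⟩
    · rw [div_le_iff₀ hs0]
      have : (n : ℝ) ^ (0.05 : ℝ) * (n : ℝ) ^ (0.95 : ℝ) ≤ (n : ℝ) ^ (0.08 : ℝ) * s :=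
        mul_le_mul e2 hs1 (by positivity) (by positivity)
      linarith
    · have := min_le_left (1 : ℝ) (eps / 20000)
      nlinarith
  · rw [not_le] at hc
    have hL : 0 < 10000 * Real.log n := by linarith
    have hc2 : (n : ℝ) < 10000 * Real.log n * s := by rwa [div_lt_iff₀ hs0] at hc
    -- the level `⌊n / (10000 log n)⌋`
    have f1 : (n : ℝ) ^ (0.01 : ℝ) * (n : ℝ) ^ (0.99 : ℝ) = n := by
      rw [← Real.rpow_add hn0]; norm_num
    have f2 : (2 : ℝ) ≤ (n : ℝ) / (10000 * Real.log n) := by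
      rw [le_div_iff₀ hL]
      have g1 : (n : ℝ) ^ (0.01 : ℝ) * (n : ℝ) ^ (0.01 : ℝ) ≤ n := by
        rw [← Real.rpow_add hn0]
        calc (n : ℝ) ^ ((0.01 : ℝ) + 0.01) ≤ (n : ℝ) ^ (1 : ℝ) :=
              Real.rpow_le_rpow_of_exponent_le hn1 (by norm_num)
          _ = n := Real.rpow_one _
      nlinarith
    set x : ℝ := (n : ℝ) / (10000 * Real.log n) with hx
    have hxn : x * (10000 * Real.log n) = n := by rw [hx]; field_simp
    have f3 : (⌊x⌋₊ : ℝ) ≤ x := Nat.floor_le (by linarith)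
    have f4 : x / 2 ≤ (⌊x⌋₊ : ℝ) := by
      have := Nat.lt_floor_add_one x
      linarith
    have f5 : (0 : ℝ) < (⌊x⌋₊ : ℝ) := by linarith
    have f6 : x < s := by
      rw [hx, div_lt_iff₀ hL]
      linarith
    refine ⟨⌊x⌋₊, ⟨?_, ?_, ?_⟩, ?_, ?_⟩
    · exact_mod_cast f5
    · rw [le_div_iff₀ f5]
      have g0 : (10000 * Real.log n) * (⌊x⌋₊ : ℝ) ≤ (10000 * Real.log n) * x :=
        mul_le_mul_of_nonneg_left f3 hL.le
      linarith
    · rw [div_le_iff₀ f5]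
      have g2 : (n : ℝ) = x * (10000 * Real.log n) := hxn.symm
      have g3 : 20000 * Real.log n ≤ (n : ℝ) ^ (0.08 : ℝ) := by
        have g4 : (n : ℝ) ^ (0.01 : ℝ) * (n : ℝ) ^ (0.01 : ℝ) ≤ (n : ℝ) ^ (0.08 : ℝ) := by
          rw [← Real.rpow_add hn0]
          exact Real.rpow_le_rpow_of_exponent_le hn1 (by norm_num)
        have g5 : 20000 * Real.log n ≤ (n : ℝ) ^ (0.01 : ℝ) * (n : ℝ) ^ (0.01 : ℝ) :=
          mul_le_mul h2 h1 (by linarith) (by positivity)
        linarith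
      have g6 : (20000 * Real.log n) * (x / 2) ≤ (n : ℝ) ^ (0.08 : ℝ) * (⌊x⌋₊ : ℝ) :=
        mul_le_mul g3 f4 (by linarith) (by positivity)
      linarith
    · have : (⌊x⌋₊ : ℝ) ≤ s := by linarith
      exact_mod_cast this
    · have g7 : min 1 (eps / 20000) * s ≤ eps / 20000 * s :=
        mul_le_mul_of_nonneg_right (min_le_right _ _) hs0.le
      have g8 : eps / 20000 * s ≤ x / 2 := by
        have : eps / 20000 * s * (20000 * Real.log n) ≤ x / 2 * (20000 * Real.log n) := by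
          calc eps / 20000 * s * (20000 * Real.log n) = eps * Real.log n * s := by ring
            _ ≤ n := hs2
            _ = x / 2 * (20000 * Real.log n) := by linarith
        exact le_of_mul_le_mul_right this (by linarith)
      linarith

/-- the middle levels -/
theorem mid_exc {eps : ℝ} (heps : 0 < eps) :
    S_EXC (fun n => (n : ℝ) ^ (0.95 : ℝ)) (fun n => (n : ℝ) / (eps * Real.log n)) := by
  classical
  obtain ⟨k₀, hk₀⟩ := s_mid
  obtain ⟨K, hK⟩ := Pool.Agent.Helper6.H.main2 (2 / 5) (9 / 10) (by norm_num) (by norm_num)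
  obtain ⟨k, hk⟩ : ∃ k : ℕ, k = max (max k₀ K) 1 := ⟨_, rfl⟩
  have hk1 : k₀ ≤ k := by rw [hk]; exact (le_max_left _ _).trans (le_max_left _ _)
  have hk2 : K ≤ k := by rw [hk]; exact (le_max_right _ _).trans (le_max_left _ _)
  have hk3 : 1 ≤ k := by rw [hk]; exact le_max_right _ _
  obtain ⟨ε, hε, hl1⟩ := hk₀ k hk1
  have hl2 := hK k hk2
  set c : ℝ := min 1 (eps / 20000) with hc
  have hc0 : 0 < c := by rw [hc]; positivity
  obtain ⟨q, C, ξ, n0, hC, hξ, hlev⟩ := mid_level k hk3 (ε := ε * c) (A := 1) (ε1 := eps)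
    (g := 9 / 10) (by positivity) one_pos heps (by norm_num) (by norm_num)
  refine ⟨k, q, C, ξ, fun n => 1 / (n : ℝ), hk3, hC, hξ, ?_, ?_⟩
  · have h1 : Tendsto (fun n : ℕ => Real.log (n : ℝ) / n) atTop (𝓝 0) := by
      have := (Real.isLittleO_log_id_atTop).tendsto_div_nhds_zero
      exact this.comp tendsto_natCast_atTop_atTop
    refine h1.congr fun n => ?_
    ring
  have f3 := (hl1.add hl2).sub_const 1
  rw [show (1 : ℝ) + 1 - 1 = 1 by norm_num] at f3
  refine tendsto_of_tendsto_of_tendsto_of_le_of_le' f3 tendsto_const_nhds ?_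
    (Eventually.of_forall fun n => frac_le_one _)
  have h25 : ∀ᶠ n : ℕ in atTop, (2 : ℝ) ≤ (n : ℝ) ^ (2 / 5 : ℝ) :=
    ((tendsto_rpow_atTop (by norm_num)).comp tendsto_natCast_atTop_atTop).eventually_ge_atTop _
  have hxi : ∀ᶠ n : ℕ in atTop, 1 / ξ ≤ (n : ℝ) ^ (1 / 2 : ℝ) :=
    ((tendsto_rpow_atTop (by norm_num)).comp tendsto_natCast_atTop_atTop).eventually_ge_atTop _
  have hsm : ∀ᶠ n : ℕ in atTop, 4 / (9 / 10 : ℝ) * Real.log n + 1 ≤ (n : ℝ) ^ (1 / 2 : ℝ) := by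
    have h1 := (isLittleO_log_rpow_atTop (show (0 : ℝ) < 1 / 2 by norm_num)).bound
      (show (0 : ℝ) < 1 / 10 by norm_num)
    have h2 := (tendsto_natCast_atTop_atTop (R := ℝ)).eventually h1
    have h3 : ∀ᶠ n : ℕ in atTop, (10 : ℝ) ≤ (n : ℝ) ^ (1 / 2 : ℝ) :=
      ((tendsto_rpow_atTop (by norm_num)).comp tendsto_natCast_atTop_atTop).eventually_ge_atTop _
    filter_upwards [h2, h3, eventually_ge_atTop 1] with n hn h10 hn1
    have hn1' : (1 : ℝ) ≤ n := by exact_mod_cast hn1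
    rw [Real.norm_of_nonneg (Real.log_nonneg hn1'), Real.norm_of_nonneg (by positivity)] at hn
    linarith
  filter_upwards [mid_window heps, h25, hxi, hsm, eventually_ge_atTop n0, eventually_ge_atTop 3]
    with n hwin h25 hxi hsm hn0 hn3
  have hn3' : (3 : ℝ) ≤ n := by exact_mod_cast hn3
  have hnp : (0 : ℝ) < n := by linarith
  have hn1 : (1 : ℝ) ≤ n := by linarith
  have hlog1 : 1 ≤ Real.log n := by
    rw [Real.le_log_iff_exp_le hnp]
    have := Real.exp_one_lt_d9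
    linarith
  refine inter_frac (X := Fin k → Alt n) _ _ _ fun z hz1 hz2 j hj1 hj2 hj3 => ?_
  have hg : TupleGap z 2 (9 / 10) := (hz2 2 (by exact_mod_cast h25)).2
  have hs : (((2 ^ j : ℕ) : ℝ)) = (2 : ℝ) ^ j := by push_cast; rfl
  have hj1' : (n : ℝ) ^ (0.95 : ℝ) ≤ ((2 ^ j : ℕ) : ℝ) := by rw [hs]; exact hj1
  have hj2' : eps * Real.log n * ((2 ^ j : ℕ) : ℝ) ≤ n := by
    have hpos : 0 < eps * Real.log n := by positivity
    rw [hs]
    have := (le_div_iff₀ hpos).1 hj2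
    linarith
  have hhalf : (n : ℝ) ^ (1 / 2 : ℝ) ≤ ((2 ^ j : ℕ) : ℝ) :=
    (Real.rpow_le_rpow_of_exponent_le hn1 (by norm_num)).trans hj1'
  obtain ⟨r, hr1, hr2, hr3⟩ := hwin (2 ^ j) hj1' hj2'
  have hrp : rp z (2 * 2 ^ j) (2 ^ j) ≤ Real.exp (-(ε * c * ((2 ^ j : ℕ) : ℝ))) := by
    refine (rp_anti_level z _ hr2).trans ?_
    refine (rp_anti_time hk3 z (hr2.trans hj3) (t := r) (by omega)).trans ?_
    refine (hz1 r hr1).trans (Real.exp_le_exp.2 ?_)
    have : c * ((2 ^ j : ℕ) : ℝ) ≤ r := hr3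
    nlinarith
  have hmain := hlev n hn0 z hg (2 ^ j) (2 ^ j) hhalf hj2' (hsm.trans hhalf) (by linarith) hrp
  rw [hs] at hmain
  have e1 : C * ((2 : ℝ) ^ j * Real.log n) = C * 2 ^ j * Real.log n := by ring
  rw [e1] at hmain
  refine hmain.trans ?_
  rw [Fintype.card_fun, Fintype.card_fin, Nat.cast_pow]
  refine mul_le_mul_of_nonneg_right ?_ (by positivity)
  rw [one_div, ← Real.exp_log (inv_pos.2 hnp), Real.log_inv]
  apply Real.exp_le_exp.2
  rw [hs] at hhalf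
  have h5 : 1 ≤ ξ * (2 : ℝ) ^ j := by
    calc (1 : ℝ) = ξ * (1 / ξ) := by field_simp
      _ ≤ ξ * (n : ℝ) ^ (1 / 2 : ℝ) := mul_le_mul_of_nonneg_left hxi hξ.le
      _ ≤ ξ * 2 ^ j := mul_le_mul_of_nonneg_left hhalf hξ.le
  nlinarith

theorem mid_part {eps : ℝ} (heps : 0 < eps) :
    S_PART (fun n => (n : ℝ) ^ (0.95 : ℝ)) (fun n => (n : ℝ) / (eps * Real.log n)) :=
  part_of_exc (mid_exc heps)

end Pool.Agent.Helper27.FS
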