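import Mathlib

/-!
# Numbers of the final step, middle levels (project FS, MP_75608d_al)
-/

set_option autoImplicit false

namespace Pool.Agent.Helper27.FS

open Real

/-- binomial coefficients near the top -/
theorem choose_sub_le (m T : ℕ) (hT : T ≤ m) {e : ℝ} (he0 : 0 < e) (he1 : e ≤ 1)
    (h : (T : ℝ) ≤ e * m) :
    ((m.choose (m - T) : ℕ) : ℝ) ≤ Real.exp (3 * Real.sqrt e * m) := by
  rw [Nat.choose_symm hT]
  have h1 : ((m.choose T : ℕ) : ℝ) * e ^ T ≤ (1 + e) ^ m := by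
    rw [add_comm, add_pow]
    have h2 : ∀ i ∈ Finset.range (m + 1), (0 : ℝ) ≤ e ^ i * 1 ^ (m - i) * (m.choose i : ℕ) := by
      intro i _
      positivity
    have h3 := Finset.single_le_sum h2 (Finset.mem_range.2 (show T < m + 1 by omega))
    calc ((m.choose T : ℕ) : ℝ) * e ^ T = e ^ T * 1 ^ (m - T) * (m.choose T : ℕ) := by
          rw [one_pow]
          ring
      _ ≤ _ := h3
  have h2 : (1 + e) ^ m ≤ Real.exp (e * m) := by
    rw [mul_comm, Real.exp_nat_mul]
    apply pow_le_pow_left₀ (by linarith)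
    linarith [Real.add_one_le_exp e]
  have h3 : Real.exp (-(2 / Real.sqrt e * T)) ≤ e ^ T := by
    have h4 : -(2 / Real.sqrt e) ≤ Real.log e := by
      have h5 : Real.log (1 / Real.sqrt e) ≤ 1 / Real.sqrt e - 1 :=
        Real.log_le_sub_one_of_pos (by positivity)
      rw [Real.log_div one_ne_zero (by positivity), Real.log_one, Real.log_sqrt he0.le] at h5
      have h6 : 2 / Real.sqrt e = 2 * (1 / Real.sqrt e) := by ring
      rw [h6]
      linarith
    calc Real.exp (-(2 / Real.sqrt e * T)) ≤ Real.exp (T * Real.log e) := by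
          apply Real.exp_le_exp.2
          have := mul_le_mul_of_nonneg_left h4 (Nat.cast_nonneg (α := ℝ) T)
          linarith
      _ = e ^ T := by
          rw [Real.exp_nat_mul, Real.exp_log he0]
  have h4 : ((m.choose T : ℕ) : ℝ) * Real.exp (-(2 / Real.sqrt e * T)) ≤ Real.exp (e * m) := by
    calc ((m.choose T : ℕ) : ℝ) * Real.exp (-(2 / Real.sqrt e * T)) ≤
          ((m.choose T : ℕ) : ℝ) * e ^ T := mul_le_mul_of_nonneg_left h3 (Nat.cast_nonneg _)
      _ ≤ _ := h1.trans h2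
  have h5 : ((m.choose T : ℕ) : ℝ) ≤ Real.exp (e * m) * Real.exp (2 / Real.sqrt e * T) := by
    have h6 : Real.exp (-(2 / Real.sqrt e * T)) * Real.exp (2 / Real.sqrt e * T) = 1 := by
      rw [← Real.exp_add, neg_add_cancel, Real.exp_zero]
    calc ((m.choose T : ℕ) : ℝ) = ((m.choose T : ℕ) : ℝ) * (Real.exp (-(2 / Real.sqrt e * T)) *
          Real.exp (2 / Real.sqrt e * T)) := by rw [h6, mul_one]
      _ = (((m.choose T : ℕ) : ℝ) * Real.exp (-(2 / Real.sqrt e * T))) *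
          Real.exp (2 / Real.sqrt e * T) := by ring
      _ ≤ _ := mul_le_mul_of_nonneg_right h4 (Real.exp_pos _).le
  refine h5.trans ?_
  rw [← Real.exp_add]
  apply Real.exp_le_exp.2
  have hs0 : 0 < Real.sqrt e := Real.sqrt_pos.2 he0
  have hs1 : Real.sqrt e ≤ 1 := Real.sqrt_le_one.2 he1
  have hss : Real.sqrt e * Real.sqrt e = e := Real.mul_self_sqrt he0.le
  have h6 : 2 / Real.sqrt e * T ≤ 2 * Real.sqrt e * m := by
    rw [div_mul_eq_mul_div, div_le_iff₀ hs0]
    calc 2 * (T : ℝ) ≤ 2 * (e * m) := by linarith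
      _ = 2 * ((Real.sqrt e * Real.sqrt e) * m) := by rw [hss]
      _ = 2 * Real.sqrt e * m * Real.sqrt e := by ring
  have h7 : e ≤ Real.sqrt e := by
    calc e = Real.sqrt e * Real.sqrt e := hss.symm
      _ ≤ Real.sqrt e * 1 := mul_le_mul_of_nonneg_left hs1 hs0.le
      _ = Real.sqrt e := mul_one _
  have h8 := mul_le_mul_of_nonneg_right h7 (Nat.cast_nonneg (α := ℝ) m)
  linarith

/-- the number of lost pairs -/
theorem lost_le {e : ℝ} (he0 : 0 < e) (he1 : e ≤ 1) {s N nl c B P J N0 D K1 : ℕ}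
    (hs : 224 / e ≤ s) (hN : 16 / e ≤ N) (hc : c = ⌊e / 224 * s⌋₊ + 1) (hB : B = ⌊e / 224 * N⌋₊)
    (hP : P = ⌊e / 32 * N⌋₊) (hJ : J = ⌊e / 16 * s⌋₊) (hN0 : N0 = N - ⌊e / 16 * N⌋₊)
    (hD : D = ⌊e / 16 * N⌋₊) (h1 : N0 ≤ nl)
    (hK : K1 = 3 * (c * nl + s * B) + s * P + J * nl) :
    ((2 * K1 + (c * nl + s * B) + s * (N - N0 + D + 1) : ℕ) : ℝ) ≤ e * (s * nl : ℕ) := by
  have hs0 : (0 : ℝ) < s := lt_of_lt_of_le (by positivity) hs
  have hNpos : (0 : ℝ) < N := lt_of_lt_of_le (by positivity) hN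
  have hDle : (D : ℝ) ≤ e / 16 * N := by rw [hD]; exact Nat.floor_le (by positivity)
  have hDN : D ≤ N := by
    have : (D : ℝ) ≤ N := hDle.trans (by nlinarith)
    exact_mod_cast this
  have hNN0 : N - N0 = D := by
    rw [hN0, ← hD]
    omega
  have hnl : (N : ℝ) ≤ 2 * nl := by
    have h2 : (N : ℝ) - D ≤ nl := by
      have h3 : N - D ≤ nl := by rw [hD, ← hN0]; exact h1
      have h4 : N ≤ nl + D := by omega
      have h5 : (N : ℝ) ≤ nl + D := by exact_mod_cast h4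
      linarith
    have h3 : e / 16 * N ≤ 1 / 2 * N := mul_le_mul_of_nonneg_right (by linarith) hNpos.le
    linarith
  have hnl0 : (0 : ℝ) < nl := by linarith
  have hc' : (c : ℝ) ≤ e / 224 * s + 1 := by
    rw [hc]
    push_cast
    have := Nat.floor_le (show 0 ≤ e / 224 * (s : ℝ) by positivity)
    linarith
  have hc1 : (1 : ℝ) ≤ e / 224 * s := by
    rw [div_le_iff₀ he0] at hs
    linarith
  have hB' : (B : ℝ) ≤ e / 224 * N := by rw [hB]; exact Nat.floor_le (by positivity)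
  have hP' : (P : ℝ) ≤ e / 32 * N := by rw [hP]; exact Nat.floor_le (by positivity)
  have hJ' : (J : ℝ) ≤ e / 16 * s := by rw [hJ]; exact Nat.floor_le (by positivity)
  have hx : (0 : ℝ) < s * nl := by positivity
  have hF : (c : ℝ) * nl + s * B ≤ e / 56 * (s * nl) := by
    have h2 : (c : ℝ) * nl ≤ (e / 224 * s + e / 224 * s) * nl :=
      mul_le_mul_of_nonneg_right (by linarith) hnl0.le
    have h3 : (s : ℝ) * B ≤ s * (e / 224 * (2 * nl)) := by
      apply mul_le_mul_of_nonneg_left _ hs0.le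
      refine hB'.trans ?_
      exact mul_le_mul_of_nonneg_left hnl (by positivity)
    calc (c : ℝ) * nl + s * B ≤ (e / 224 * s + e / 224 * s) * nl + s * (e / 224 * (2 * nl)) :=
          add_le_add h2 h3
      _ = e / 56 * (s * nl) := by ring
  have hsP : (s : ℝ) * P ≤ e / 16 * (s * nl) := by
    calc (s : ℝ) * P ≤ s * (e / 32 * (2 * nl)) := by
          apply mul_le_mul_of_nonneg_left _ hs0.le
          refine hP'.trans ?_
          exact mul_le_mul_of_nonneg_left hnl (by positivity)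
      _ = e / 16 * (s * nl) := by ring
  have hJnl : (J : ℝ) * nl ≤ e / 16 * (s * nl) := by
    calc (J : ℝ) * nl ≤ e / 16 * s * nl := mul_le_mul_of_nonneg_right hJ' hnl0.le
      _ = _ := by ring
  have hsD : (s : ℝ) * D ≤ e / 8 * (s * nl) := by
    calc (s : ℝ) * D ≤ s * (e / 16 * (2 * nl)) := by
          apply mul_le_mul_of_nonneg_left _ hs0.le
          refine hDle.trans ?_
          exact mul_le_mul_of_nonneg_left hnl (by positivity)
      _ = e / 8 * (s * nl) := by ring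
  have hs1 : (s : ℝ) ≤ e / 8 * (s * nl) := by
    have h2 : 8 / e ≤ nl := by
      have h3 : 16 / e = 2 * (8 / e) := by ring
      rw [h3] at hN
      linarith
    rw [div_le_iff₀ he0] at h2
    have h3 : (s : ℝ) * 8 ≤ s * (nl * e) := mul_le_mul_of_nonneg_left h2 hs0.le
    linarith
  rw [hNN0, hK]
  push_cast
  have e1 : (2 : ℝ) * (3 * (↑c * ↑nl + ↑s * ↑B) + ↑s * ↑P + ↑J * ↑nl) + (↑c * ↑nl + ↑s * ↑B) +
      ↑s * (↑D + ↑D + 1) = 7 * (↑c * ↑nl + ↑s * ↑B) + 2 * (↑s * ↑P) + 2 * (↑J * ↑nl) +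
      2 * (↑s * ↑D) + ↑s := by ring
  rw [e1]
  have h9 : 0 < e * (s * nl) := by positivity
  linarith

/-- the exposure term -/
theorem spb_le {c0 : ℝ} (h0 : 0 < c0) (h1 : c0 ≤ 1) {n s N nl T f : ℕ} {κ : ℝ}
    (hκ : κ ≤ c0 / 4)
    (hT : (T : ℝ) ≤ (c0 / 24) ^ 2 * (s * nl : ℕ)) (hf : (f : ℝ) ≤ Real.exp (-c0) * n)
    (hsN : (s : ℝ) * N ≤ κ * n) (hn : 0 < n) :
    (((s * nl).choose (s * nl - T) : ℕ) : ℝ) * ((f : ℝ) / ((n : ℝ) - s * N)) ^ (s * nl - T) ≤
      Real.exp (-(c0 / 8 * (s * nl : ℕ))) := by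
  obtain ⟨m, hm⟩ : ∃ m, m = s * nl := ⟨_, rfl⟩
  rw [← hm] at hT ⊢
  obtain ⟨e, he⟩ : ∃ e : ℝ, e = (c0 / 24) ^ 2 := ⟨_, rfl⟩
  rw [← he] at hT
  have he0 : 0 < e := by rw [he]; positivity
  have he1 : e ≤ 1 / 2 := by
    rw [he]
    have : c0 / 24 ≤ 1 / 24 := by linarith
    calc (c0 / 24) ^ 2 ≤ (1 / 24) ^ 2 := pow_le_pow_left₀ (by positivity) this 2
      _ ≤ 1 / 2 := by norm_num
  have hm0 : (0 : ℝ) ≤ m := Nat.cast_nonneg _
  have hTm : T ≤ m := by
    have h2 : (T : ℝ) ≤ m := hT.trans (by nlinarith)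
    exact_mod_cast h2
  have hsq : Real.sqrt e = c0 / 24 := by
    rw [he]
    exact Real.sqrt_sq (by positivity)
  have h2 := choose_sub_le m T hTm he0 (by linarith) hT
  rw [hsq] at h2
  have hn' : (0 : ℝ) < n := by exact_mod_cast hn
  have h3 : (f : ℝ) / ((n : ℝ) - s * N) ≤ Real.exp (-(c0 / 2)) := by
    have h4 : (1 - c0 / 4) * n ≤ (n : ℝ) - s * N := by
      have := mul_le_mul_of_nonneg_right hκ hn'.le
      linarith
    have h5 : 0 < (1 - c0 / 4) * n := by
      apply mul_pos _ hn'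
      linarith
    rw [div_le_iff₀ (by linarith)]
    have h6 : Real.exp (-(c0 / 2)) ≤ 1 - c0 / 4 := by
      have h7 : Real.exp (-(c0 / 2)) ≤ 1 / (1 + c0 / 2) := by
        rw [Real.exp_neg, ← one_div]
        apply one_div_le_one_div_of_le (by linarith)
        linarith [Real.add_one_le_exp (c0 / 2)]
      refine h7.trans ?_
      rw [div_le_iff₀ (by linarith)]
      nlinarith
    calc (f : ℝ) ≤ Real.exp (-c0) * n := hf
      _ = Real.exp (-(c0 / 2)) * (Real.exp (-(c0 / 2)) * n) := by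
          rw [← mul_assoc, ← Real.exp_add]
          congr 2
          ring
      _ ≤ Real.exp (-(c0 / 2)) * ((1 - c0 / 4) * n) := by
          apply mul_le_mul_of_nonneg_left _ (Real.exp_pos _).le
          exact mul_le_mul_of_nonneg_right h6 hn'.le
      _ ≤ _ := mul_le_mul_of_nonneg_left h4 (Real.exp_pos _).le
  have h4 : 0 ≤ (f : ℝ) / ((n : ℝ) - s * N) := by
    apply div_nonneg (Nat.cast_nonneg _)
    have := mul_le_mul_of_nonneg_right hκ hn'.le
    nlinarith
  have h5 : ((f : ℝ) / ((n : ℝ) - s * N)) ^ (m - T) ≤ Real.exp (-(c0 / 4 * m)) := by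
    calc ((f : ℝ) / ((n : ℝ) - s * N)) ^ (m - T) ≤ (Real.exp (-(c0 / 2))) ^ (m - T) :=
          pow_le_pow_left₀ h4 h3 _
      _ = Real.exp (((m - T : ℕ) : ℝ) * (-(c0 / 2))) := (Real.exp_nat_mul _ _).symm
      _ ≤ Real.exp (-(c0 / 4 * m)) := by
          apply Real.exp_le_exp.2
          rw [Nat.cast_sub hTm]
          have h6 : (T : ℝ) ≤ 1 / 2 * m := hT.trans (mul_le_mul_of_nonneg_right he1 hm0)
          nlinarith
  calc _ ≤ Real.exp (3 * (c0 / 24) * m) * Real.exp (-(c0 / 4 * m)) :=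
        mul_le_mul h2 h5 (pow_nonneg h4 _) (Real.exp_pos _).le
    _ = _ := by
        rw [← Real.exp_add]
        congr 1
        ring

end Pool.Agent.Helper27.FS
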