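import Mathlib

/-!
# Numbers of the final step, middle levels, part 2 (project FS, MP_75608d_al)
-/

set_option autoImplicit false

namespace Pool.Agent.Helper27.FS

open Real

/-- the closing term: `4 ^ s * (C N ^ 3 / n) ^ (J / 3) ≤ exp (- (j / 24) s log n)` -/
theorem fcl_le (C : ℝ) (hC : 0 < C) {j : ℝ} (hj : 0 < j) : ∃ n0 : ℕ, ∀ n s N J : ℕ, n0 ≤ n →
    6 / j ≤ s → (N : ℝ) ≤ Real.log n → J = ⌊j * s⌋₊ →
    (4 : ℝ) ^ s * (C * (N : ℝ) ^ 3 / n) ^ (J / 3) ≤ Real.exp (-(j / 24 * (s * Real.log n))) := by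
  -- `C (log n)^3 ≤ n^(1/2)` for large `n`
  have hlim : Filter.Tendsto (fun n : ℕ => (Real.log (n : ℝ)) ^ 3 / (n : ℝ) ^ ((1 : ℝ) / 2))
      Filter.atTop (nhds 0) := by
    have h1 := isLittleO_log_rpow_atTop (show (0 : ℝ) < 1 / 6 by norm_num)
    have h2 : Filter.Tendsto (fun x : ℝ => Real.log x / x ^ ((1 : ℝ) / 6)) Filter.atTop
        (nhds 0) := h1.tendsto_div_nhds_zero
    have h3 := (h2.pow 3).comp tendsto_natCast_atTop_atTop
    rw [zero_pow (by norm_num)] at h3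
    refine h3.congr' ?_
    filter_upwards [Filter.eventually_gt_atTop 0] with n hn
    have hn' : (0 : ℝ) < n := by exact_mod_cast hn
    show (Real.log (n : ℝ) / (n : ℝ) ^ ((1 : ℝ) / 6)) ^ 3 = _
    rw [div_pow]
    congr 1
    rw [← Real.rpow_natCast, ← Real.rpow_mul hn'.le]
    norm_num
  have hev : ∀ᶠ n : ℕ in Filter.atTop, (Real.log (n : ℝ)) ^ 3 / (n : ℝ) ^ ((1 : ℝ) / 2) < 1 / C :=
    hlim.eventually (gt_mem_nhds (by positivity))
  have hev2 : ∀ᶠ n : ℕ in Filter.atTop, 24 * Real.log 4 / j ≤ Real.log (n : ℝ) :=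
    (Real.tendsto_log_atTop.comp tendsto_natCast_atTop_atTop).eventually_ge_atTop _
  obtain ⟨n1, hn1⟩ := Filter.eventually_atTop.1 (hev.and hev2)
  refine ⟨max n1 2, ?_⟩
  intro n s N J hn hs hN hJ
  obtain ⟨h1, h2⟩ := hn1 n ((le_max_left _ _).trans hn)
  have hn2 : 2 ≤ n := (le_max_right _ _).trans hn
  have hn' : (0 : ℝ) < n := by
    have : 0 < n := by omega
    exact_mod_cast this
  obtain ⟨lg, hlg⟩ : ∃ lg : ℝ, lg = Real.log n := ⟨_, rfl⟩
  rw [← hlg] at h1 h2 hN ⊢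
  have hlog4 : 0 < Real.log 4 := Real.log_pos (by norm_num)
  have hlg0 : 0 < lg := lt_of_lt_of_le (by positivity) h2
  have hs0 : (0 : ℝ) < s := lt_of_lt_of_le (by positivity) hs
  have hroot : (n : ℝ) ^ ((1 : ℝ) / 2) = Real.exp (lg / 2) := by
    rw [Real.rpow_def_of_pos hn', ← hlg]
    congr 1
    ring
  have hnexp : (n : ℝ) = Real.exp lg := by rw [hlg, Real.exp_log hn']
  have h3 : C * (N : ℝ) ^ 3 / n ≤ Real.exp (-(lg / 2)) := by
    rw [div_le_iff₀ hn']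
    have h4 : (N : ℝ) ^ 3 ≤ lg ^ 3 := pow_le_pow_left₀ (Nat.cast_nonneg _) hN 3
    rw [hroot, div_lt_div_iff₀ (Real.exp_pos _) hC, one_mul] at h1
    calc C * (N : ℝ) ^ 3 ≤ C * lg ^ 3 := mul_le_mul_of_nonneg_left h4 hC.le
      _ = lg ^ 3 * C := mul_comm _ _
      _ ≤ Real.exp (lg / 2) := h1.le
      _ = Real.exp (-(lg / 2)) * n := by
          rw [hnexp, ← Real.exp_add]
          congr 1
          ring
  have h4 : 0 ≤ C * (N : ℝ) ^ 3 / n := by positivity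
  have hJ3 : j * s / 6 ≤ ((J / 3 : ℕ) : ℝ) := by
    have h5 : j * s < (J : ℝ) + 1 := by
      rw [hJ]
      exact Nat.lt_floor_add_one _
    have h6 : J ≤ 3 * (J / 3) + 2 := by omega
    have h7 : (J : ℝ) ≤ 3 * ((J / 3 : ℕ) : ℝ) + 2 := by exact_mod_cast h6
    rw [div_le_iff₀ hj] at hs
    linarith
  have h5 : (C * (N : ℝ) ^ 3 / n) ^ (J / 3) ≤ Real.exp (-(j / 12 * (s * lg))) := by
    calc (C * (N : ℝ) ^ 3 / n) ^ (J / 3) ≤ (Real.exp (-(lg / 2))) ^ (J / 3) :=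
          pow_le_pow_left₀ h4 h3 _
      _ = Real.exp (((J / 3 : ℕ) : ℝ) * (-(lg / 2))) := (Real.exp_nat_mul _ _).symm
      _ ≤ Real.exp (-(j / 12 * (s * lg))) := by
          apply Real.exp_le_exp.2
          have := mul_le_mul_of_nonneg_right hJ3 (show 0 ≤ lg / 2 by positivity)
          linarith
  have h6 : (4 : ℝ) ^ s ≤ Real.exp (j / 24 * (s * lg)) := by
    have h7 : (4 : ℝ) ^ s = Real.exp (s * Real.log 4) := by
      rw [Real.exp_nat_mul, Real.exp_log (by norm_num)]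
    rw [h7]
    apply Real.exp_le_exp.2
    rw [div_le_iff₀ hj] at h2
    have := mul_le_mul_of_nonneg_left h2 hs0.le
    linarith
  calc (4 : ℝ) ^ s * (C * (N : ℝ) ^ 3 / n) ^ (J / 3) ≤
        Real.exp (j / 24 * (s * lg)) * Real.exp (-(j / 12 * (s * lg))) :=
        mul_le_mul h6 h5 (pow_nonneg h4 _) (Real.exp_pos _).le
    _ = _ := by
        rw [← Real.exp_add]
        congr 1
        ring

/-- the term of the words -/
theorem wrd_le {e ε : ℝ} (he : 0 < e) (hε : 0 < ε) {s N D : ℕ} {p1 : ℝ} (hp0 : 0 ≤ p1)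
    (hp : p1 ≤ Real.exp (-(ε * s))) (hs : 32 / (e * ε) ≤ s) (hD : D = ⌊e / 16 * N⌋₊) :
    (2 : ℝ) ^ N * p1 ^ (D + 1) ≤ Real.exp (-(e * ε / 32 * (s * N))) := by
  have hD' : e / 16 * N ≤ (D : ℝ) + 1 := by
    rw [hD]
    exact (Nat.lt_floor_add_one _).le
  have hs' : 32 ≤ s * (e * ε) := by
    rwa [div_le_iff₀ (by positivity)] at hs
  have h1 : p1 ^ (D + 1) ≤ Real.exp (-(e * ε / 16 * (s * N))) := by
    calc p1 ^ (D + 1) ≤ (Real.exp (-(ε * s))) ^ (D + 1) := pow_le_pow_left₀ hp0 hp _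
      _ = Real.exp (((D + 1 : ℕ) : ℝ) * (-(ε * s))) := (Real.exp_nat_mul _ _).symm
      _ ≤ _ := by
          apply Real.exp_le_exp.2
          push_cast
          have := mul_le_mul_of_nonneg_right hD' (show 0 ≤ ε * s by positivity)
          linarith
  have h2 : (2 : ℝ) ^ N ≤ Real.exp (e * ε / 32 * (s * N)) := by
    calc (2 : ℝ) ^ N ≤ (Real.exp 1) ^ N := by
          apply pow_le_pow_left₀ (by norm_num)
          linarith [Real.add_one_le_exp (1 : ℝ)]
      _ = Real.exp (N * 1) := (Real.exp_nat_mul _ _).symm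
      _ ≤ _ := by
          apply Real.exp_le_exp.2
          have := mul_le_mul_of_nonneg_right hs' (Nat.cast_nonneg (α := ℝ) N)
          linarith
  calc (2 : ℝ) ^ N * p1 ^ (D + 1) ≤ Real.exp (e * ε / 32 * (s * N)) *
        Real.exp (-(e * ε / 16 * (s * N))) := mul_le_mul h2 h1 (by positivity) (Real.exp_pos _).le
    _ = _ := by
        rw [← Real.exp_add]
        congr 1
        ring

/-- the weight of the bad patterns -/
theorem pat_num {e : ℝ} (he : 0 < e) {N P N0 : ℕ} {θ ρ : ℝ} (hN : 1 ≤ N)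
    (hθ : θ = Real.exp (-(48 / e))) (hρ0 : 0 ≤ ρ) (hρ : ρ ≤ Real.exp (-(128 / e)))
    (hP : P = ⌊e / 32 * N⌋₊) (hN0 : N0 = N - ⌊e / 16 * N⌋₊) (he1 : e ≤ 1) :
    (2 : ℝ) ^ N * θ ^ (N - N0 + 1) + 4 ^ N * ρ ^ (P + 1) ≤ Real.exp (-(1 * N)) := by
  have hN' : (1 : ℝ) ≤ N := by exact_mod_cast hN
  have h0 : ⌊e / 16 * (N : ℝ)⌋₊ ≤ N := by
    have h1 : (⌊e / 16 * (N : ℝ)⌋₊ : ℝ) ≤ e / 16 * N := Nat.floor_le (by positivity)
    have h2 : (⌊e / 16 * (N : ℝ)⌋₊ : ℝ) ≤ N := h1.trans (by nlinarith)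
    exact_mod_cast h2
  have h1 : N - N0 + 1 = ⌊e / 16 * (N : ℝ)⌋₊ + 1 := by omega
  have h2 : e / 16 * N ≤ ((⌊e / 16 * (N : ℝ)⌋₊ + 1 : ℕ) : ℝ) := by
    push_cast
    exact (Nat.lt_floor_add_one _).le
  have h3 : e / 32 * N ≤ ((P + 1 : ℕ) : ℝ) := by
    rw [hP]
    push_cast
    exact (Nat.lt_floor_add_one _).le
  have h4 : θ ^ (N - N0 + 1) ≤ Real.exp (-(3 * N)) := by
    rw [h1, hθ, ← Real.exp_nat_mul]
    apply Real.exp_le_exp.2
    have := mul_le_mul_of_nonneg_right h2 (show 0 ≤ 48 / e by positivity)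
    have h5 : e / 16 * N * (48 / e) = 3 * N := by
      field_simp
      ring
    linarith
  have h5 : ρ ^ (P + 1) ≤ Real.exp (-(4 * N)) := by
    calc ρ ^ (P + 1) ≤ (Real.exp (-(128 / e))) ^ (P + 1) := pow_le_pow_left₀ hρ0 hρ _
      _ = Real.exp (((P + 1 : ℕ) : ℝ) * (-(128 / e))) := (Real.exp_nat_mul _ _).symm
      _ ≤ _ := by
          apply Real.exp_le_exp.2
          have := mul_le_mul_of_nonneg_right h3 (show 0 ≤ 128 / e by positivity)
          have h6 : e / 32 * N * (128 / e) = 4 * N := by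
            field_simp
            ring
          linarith
  have he2 : (2 : ℝ) ≤ Real.exp 1 := by linarith [Real.add_one_le_exp (1 : ℝ)]
  have h6 : (2 : ℝ) ^ N ≤ Real.exp N := by
    calc (2 : ℝ) ^ N ≤ (Real.exp 1) ^ N := pow_le_pow_left₀ (by norm_num) he2 _
      _ = Real.exp (N * 1) := (Real.exp_nat_mul _ _).symm
      _ = _ := by rw [mul_one]
  have h7 : (4 : ℝ) ^ N ≤ Real.exp (2 * N) := by
    calc (4 : ℝ) ^ N = 2 ^ N * 2 ^ N := by
          rw [← mul_pow]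
          norm_num
      _ ≤ Real.exp N * Real.exp N := mul_le_mul h6 h6 (by positivity) (Real.exp_pos _).le
      _ = _ := by
          rw [← Real.exp_add]
          congr 1
          ring
  calc (2 : ℝ) ^ N * θ ^ (N - N0 + 1) + 4 ^ N * ρ ^ (P + 1) ≤
        Real.exp N * Real.exp (-(3 * N)) + Real.exp (2 * N) * Real.exp (-(4 * N)) := by
        apply add_le_add
        · exact mul_le_mul h6 h4 (by rw [hθ]; positivity) (Real.exp_pos _).le
        · exact mul_le_mul h7 h5 (by positivity) (Real.exp_pos _).le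
    _ = 2 * Real.exp (-(2 * N)) := by
        rw [← Real.exp_add, ← Real.exp_add]
        have e1 : (N : ℝ) + -(3 * N) = -(2 * N) := by ring
        have e2 : 2 * (N : ℝ) + -(4 * N) = -(2 * N) := by ring
        rw [e1, e2]
        ring
    _ ≤ Real.exp 1 * Real.exp (-(2 * N)) := mul_le_mul_of_nonneg_right he2 (Real.exp_pos _).le
    _ ≤ _ := by
        rw [← Real.exp_add]
        apply Real.exp_le_exp.2
        linarith

end Pool.Agent.Helper27.FS
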