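import Pool.Agent.Helper13.FS.Rp
import Pool.Agent.Helper1.TP.Goals

/-!
# Words agreeing at many places, from return probabilities (project FS, MP_75608d_al)
-/

set_option autoImplicit false

namespace Pool.Agent.Helper27.FS

open Finset Pool.Agent.Helper35.MP Pool.Agent.Helper13.FS Pool.Agent.Helper38.FS
open Pool.Agent.Helper3.AK (Alt)

/-- the probability that two independent words agree at more than `f` places -/
theorem p1_le {n k : ℕ} (hk : 0 < k) (z : Fin k → Alt n) (s t0 f : ℕ) {c0 ε : ℝ} (hc0 : 0 < c0)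
    (hc1 : c0 ≤ 1 / 8) (hc2 : c0 ≤ ε / 4) (hf : f = ⌊Real.exp (-c0) * n⌋₊) (hs : 8 * s ≤ n)
    (hn : 0 < n) (h : rp z (2 * t0) s ≤ Real.exp (-(ε * s))) :
    ∑ A : Equiv.Perm (Fin n), ∑ B : Equiv.Perm (Fin n),
      (if f < Pool.Agent.Helper1.TP.agr A B then lz0 (up z) t0 A * lz0 (up z) t0 B else 0) ≤
      Real.exp (-(ε / 2 * s)) := by
  have : Nonempty (Fin k) := ⟨⟨0, hk⟩⟩
  have hn' : (0 : ℝ) < n := by exact_mod_cast hn
  have hW : Wt (gl (up z)) (1 / 2) (lwt (Fin k) (1 / 2)) :=
    lwt_Wt (up z) (by norm_num) (by norm_num)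
  have hfl : Real.exp (-c0) * n < (f : ℝ) + 1 := by
    rw [hf]
    exact Nat.lt_floor_add_one _
  have he : 1 - c0 ≤ Real.exp (-c0) := by linarith [Real.add_one_le_exp (-c0)]
  have he2 : Real.exp (-c0) < 1 := by
    rw [Real.exp_lt_one_iff]
    linarith
  have hfn : f < n := by
    have h1 : (f : ℝ) ≤ Real.exp (-c0) * n := by
      rw [hf]
      exact Nat.floor_le (by positivity)
    have h2 : (f : ℝ) < n := by
      calc (f : ℝ) ≤ Real.exp (-c0) * n := h1
        _ < 1 * n := mul_lt_mul_of_pos_right he2 hn'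
        _ = n := one_mul _
    exact_mod_cast h2
  obtain ⟨A', hA'⟩ : ∃ A' : ℕ, A' = n - (f + 1) := ⟨_, rfl⟩
  have hA1 : (A' : ℝ) ≤ c0 * n := by
    rw [hA', Nat.cast_sub (by omega)]
    push_cast
    nlinarith
  have h2A : 2 * (s + A') ≤ Fintype.card (Fin n) := by
    rw [Fintype.card_fin]
    have h1 : (8 : ℝ) * s ≤ n := by exact_mod_cast hs
    have h2 : (2 : ℝ) * (s + A') ≤ n := by nlinarith
    exact_mod_cast h2
  have h1 := supp_small (gl (up z)) (lwt (Fin k) (1 / 2)) hW s t0 A' h2A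
    (by rw [Fintype.card_fin]; exact hn) (R := rp z (2 * t0) s) (ret_rp_old hk z s t0).le
  rw [Fintype.card_fin] at h1
  have h3 : ∑ A : Equiv.Perm (Fin n), ∑ B : Equiv.Perm (Fin n),
      (if f < Pool.Agent.Helper1.TP.agr A B then lz0 (up z) t0 A * lz0 (up z) t0 B else 0) =
      ∑ a : Fin t0 → Option (Fin k × Bool), ∑ b : Fin t0 → Option (Fin k × Bool),
      (if n ≤ fx ((wd (gl (up z)) t0 b)⁻¹ * wd (gl (up z)) t0 a) + A' then
        (∏ k', lwt (Fin k) (1 / 2) (a k')) * (∏ k', lwt (Fin k) (1 / 2) (b k')) else 0) := by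
    have e1 := sum_law (gl (up z)) (lwt (Fin k) (1 / 2)) t0
      (fun A => ∑ B : Equiv.Perm (Fin n), law (gl (up z)) (lwt (Fin k) (1 / 2)) t0 B *
        (if f < Pool.Agent.Helper1.TP.agr A B then 1 else 0))
    calc _ = ∑ A : Equiv.Perm (Fin n), law (gl (up z)) (lwt (Fin k) (1 / 2)) t0 A *
          ∑ B : Equiv.Perm (Fin n), law (gl (up z)) (lwt (Fin k) (1 / 2)) t0 B *
            (if f < Pool.Agent.Helper1.TP.agr A B then 1 else 0) := by
          apply sum_congr rfl
          intro A _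
          rw [mul_sum]
          apply sum_congr rfl
          intro B _
          unfold lz0
          split_ifs <;> ring
      _ = _ := by
          rw [e1]
          apply sum_congr rfl
          intro a _
          rw [sum_law (gl (up z)) (lwt (Fin k) (1 / 2)) t0
            (fun B => (if f < Pool.Agent.Helper1.TP.agr (wd (gl (up z)) t0 a) B then (1 : ℝ)
              else 0)), mul_sum]
          apply sum_congr rfl
          intro b _
          have e2 : (f < Pool.Agent.Helper1.TP.agr (wd (gl (up z)) t0 a) (wd (gl (up z)) t0 b)) ↔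
              (n ≤ fx ((wd (gl (up z)) t0 b)⁻¹ * wd (gl (up z)) t0 a) + A') := by
            rw [fx_eq]
            unfold Pool.Agent.Helper1.TP.agr
            omega
          by_cases h4 : f < Pool.Agent.Helper1.TP.agr (wd (gl (up z)) t0 a) (wd (gl (up z)) t0 b)
          · rw [if_pos h4, if_pos (e2.1 h4)]
            ring
          · rw [if_neg h4, if_neg fun h5 => h4 (e2.2 h5)]
            ring
  rw [h3]
  refine h1.trans ?_
  have h4 : Real.exp (2 * s * A' / n) ≤ Real.exp (ε / 2 * s) := by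
    apply Real.exp_le_exp.2
    rw [div_le_iff₀ hn']
    have h5 : (0 : ℝ) ≤ s := Nat.cast_nonneg _
    have h6 : (A' : ℝ) ≤ ε / 4 * n := hA1.trans (mul_le_mul_of_nonneg_right hc2 hn'.le)
    have h7 := mul_le_mul_of_nonneg_left h6 (show (0 : ℝ) ≤ 2 * s by positivity)
    linarith
  calc rp z (2 * t0) s * Real.exp (2 * s * A' / n) ≤
        Real.exp (-(ε * s)) * Real.exp (ε / 2 * s) :=
        mul_le_mul h h4 (Real.exp_pos _).le (Real.exp_pos _).le
    _ = _ := by
        rw [← Real.exp_add]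
        congr 1
        ring

end Pool.Agent.Helper27.FS
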