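import Pool.Agent.Helper27.FS.Num
import Pool.Agent.Helper27.FS.NumB
import Pool.Agent.Helper27.FS.NumC
import Pool.Agent.Helper27.FS.BadP
import Pool.Agent.Helper27.FS.P1
import Pool.Agent.Helper35.TP.Met
import Pool.Agent.Helper73.TP.HG2
import Pool.Agent.Helper46.FS.FclTP
import Pool.Agent.Helper11.FS.Spb
import Pool.Agent.Helper19.FS.BetaUp

/-!
# The final step at one middle level (project FS, MP_75608d_al)
-/

set_option autoImplicit false
set_option linter.unusedSectionVars false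

namespace Pool.Agent.Helper27.FS

open Finset Pool.Agent.Helper35.MP Pool.Agent.Helper13.FS Pool.Agent.Helper38.FS
  Pool.Agent.Helper1.TP
open Pool.Agent.Helper3.AK (Alt TupleGap)
open Pool.Agent.Helper4.FS (World)

/-- the closing bound for one good pattern -/
theorem mid_closing {c0 ε e κ c' : ℝ} (hc0 : 0 < c0) (hc01 : c0 ≤ 1 / 8)
    (hε : 0 < ε) (he : e = (c0 / 24) ^ 2) (hκ : κ ≤ c0 / 4) (hκ2 : κ ≤ 1 / 32)
    {n q N s c B P J N0 f D : ℕ} {μ : Equiv.Perm (Fin n) → ℝ}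
    (hn : 0 < n) (hfcl : (4 : ℝ) ^ s * (72 * (N : ℝ) ^ 3 / n) ^ (J / 3) ≤
      Real.exp (-(e / 16 / 24 * (s * Real.log n))))
    (hs : 224 / e ≤ s) (hs2 : 32 / (e * (ε / 2)) ≤ s) (hN : 16 / e ≤ N)
    (hNlog : c' / 2 * Real.log n ≤ N)
    (hc : c = ⌊e / 224 * s⌋₊ + 1) (hB : B = ⌊e / 224 * N⌋₊) (hP : P = ⌊e / 32 * N⌋₊)
    (hJ : J = ⌊e / 16 * s⌋₊) (hN0 : N0 = N - ⌊e / 16 * N⌋₊) (hD : D = ⌊e / 16 * N⌋₊)
    (hf : f = ⌊Real.exp (-c0) * n⌋₊) (hsN : (s : ℝ) * N ≤ κ * n)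
    (hμ : ∀ p, 0 ≤ μ p) (hμ1 : ∑ p, μ p = 1)
    (hp1 : ∑ A : Equiv.Perm (Fin n), ∑ B : Equiv.Perm (Fin n),
      (if f < agr A B then μ A * μ B else 0) ≤ Real.exp (-(ε / 2 * s)))
    (g : Fin N → Option (Pool.Agent.Helper4.FS.Lt q)) (hg : ¬ BadG N0 P g) (x : Fin s ↪ Fin n) :
    ∑ A : Fin N → Equiv.Perm (Fin n), ∑ B' : Fin N → Equiv.Perm (Fin n),
      (∏ j, μ (A j)) * (∏ j, μ (B' j)) *
      (Nat.card {y : World q n // Closed y (extW A) (extW B') (extG g) N x ∧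
        Unc y (extW A) (extG g) N c B x ∧ Unc y (extW B') (extG g) N c B x} : ℝ) ≤
      (3 * Real.exp (-(min (min (e * (ε / 2) * c' / 64) (c0 * c' / 32)) (e / 384) *
        (s * Real.log n)))) * (n.factorial : ℝ) ^ q := by
  have he0 : 0 < e := by rw [he]; positivity
  have he1 : e ≤ 1 := by
    rw [he]
    have h1 : c0 / 24 ≤ 1 := by linarith
    calc (c0 / 24) ^ 2 ≤ 1 ^ 2 := pow_le_pow_left₀ (by positivity) h1 2
      _ = 1 := by norm_num
  have hs0 : (0 : ℝ) < s := lt_of_lt_of_le (by positivity) hs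
  have hNpos : (0 : ℝ) < N := lt_of_lt_of_le (by positivity) hN
  have hN1 : 1 ≤ N := by
    have : 0 < N := by exact_mod_cast hNpos
    omega
  have hs1 : 1 ≤ s := by
    have : 0 < s := by exact_mod_cast hs0
    omega
  have hn' : (0 : ℝ) < n := by exact_mod_cast hn
  have hU0 : 0 ≤ (s : ℝ) * Real.log n := by
    apply mul_nonneg hs0.le
    apply Real.log_nonneg
    exact_mod_cast hn
  unfold BadG at hg
  push Not at hg
  obtain ⟨hg1, hg2⟩ := hg
  obtain ⟨m, hm⟩ : ∃ m, m = nl (extG g) N := ⟨_, rfl⟩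
  obtain ⟨K1, hK1⟩ : ∃ K1, K1 = 3 * (c * m + s * B) + s * P + J * m := ⟨_, rfl⟩
  obtain ⟨T, hT⟩ : ∃ T, T = 2 * K1 + (c * m + s * B) + s * (N - N0 + D + 1) := ⟨_, rfl⟩
  have hlost : (T : ℝ) ≤ e * (s * m : ℕ) := by
    rw [hT]
    exact lost_le he0 he1 hs hN hc hB hP hJ hN0 hD (by rw [hm]; exact hg1) hK1
  have hTm : T ≤ s * m := by
    have h1 : (T : ℝ) ≤ (s * m : ℕ) := hlost.trans (by
      have : (0 : ℝ) ≤ (s * m : ℕ) := Nat.cast_nonneg _
      nlinarith)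
    exact_mod_cast h1
  have hsize : 4 * s * N + 8 * N ≤ n := by
    have h1 : (4 : ℝ) * s * N + 8 * N ≤ n := by
      have h2 : (N : ℝ) ≤ s * N := by
        have : (1 : ℝ) ≤ s := by exact_mod_cast hs1
        nlinarith
      have h3 : κ * n ≤ 1 / 32 * n := mul_le_mul_of_nonneg_right hκ2 hn'.le
      nlinarith
    exact_mod_cast h1
  have hmain := Pool.Agent.Helper73.TP.s_hgb Pool.Agent.Helper46.FS.s_fcl
    Pool.Agent.Helper11.FS.spb Pool.Agent.Helper5.FS.s_wrd q n N s c B P J N0 f D K1 (s * m - T) μ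
    (Real.exp (-(ε / 2 * s))) g x x.injective hμ hμ1 hp1 hN1 hsize hg2 hg1
    (by rw [← hm, ← hK1]) (by
      rw [← hm]
      rw [hT] at hTm ⊢
      omega)
  rw [← hm] at hmain
  refine hmain.trans ?_
  apply mul_le_mul_of_nonneg_right _ (by positivity)
  -- the three terms
  obtain ⟨cr, hcr⟩ : ∃ cr : ℝ, cr = min (min (e * (ε / 2) * c' / 64) (c0 * c' / 32)) (e / 384) :=
    ⟨_, rfl⟩
  rw [← hcr]
  have hcra : cr ≤ e * (ε / 2) * c' / 64 := by
    rw [hcr]; exact (min_le_left _ _).trans (min_le_left _ _)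
  have hcrb : cr ≤ c0 * c' / 32 := by
    rw [hcr]; exact (min_le_left _ _).trans (min_le_right _ _)
  have hcrc : cr ≤ e / 384 := by
    rw [hcr]; exact min_le_right _ _
  have hsNlog : c' / 2 * (s * Real.log n) ≤ s * N := by
    have := mul_le_mul_of_nonneg_left hNlog hs0.le
    linarith
  have hA : (2 : ℝ) ^ N * Real.exp (-(ε / 2 * s)) ^ (D + 1) ≤
      Real.exp (-(cr * (s * Real.log n))) := by
    refine (wrd_le he0 (show 0 < ε / 2 by positivity) (Real.exp_pos _).le le_rfl hs2 hD).trans ?_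
    apply Real.exp_le_exp.2
    have h1 := mul_le_mul_of_nonneg_left hsNlog (show 0 ≤ e * (ε / 2) / 32 by positivity)
    have h2 := mul_le_mul_of_nonneg_right hcra hU0
    nlinarith
  have hmN : (N : ℝ) ≤ 2 * m := by
    have h1 : (D : ℝ) ≤ e / 16 * N := by rw [hD]; exact Nat.floor_le (by positivity)
    have h2 : N ≤ m + D := by
      have h3 : N - D ≤ m := by rw [hm, hD, ← hN0]; exact hg1
      omega
    have h4 : (N : ℝ) ≤ m + D := by exact_mod_cast h2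
    nlinarith
  have hBt : (((s * m).choose (s * m - T) : ℕ) : ℝ) *
      ((f : ℝ) / ((n : ℝ) - s * N)) ^ (s * m - T) ≤ Real.exp (-(cr * (s * Real.log n))) := by
    refine (spb_le hc0 (by linarith) hκ (by rw [← he]; exact hlost)
      (by rw [hf]; exact Nat.floor_le (by positivity)) hsN hn).trans ?_
    apply Real.exp_le_exp.2
    push_cast
    have h1 : (s : ℝ) * N ≤ 2 * (s * m) := by
      have := mul_le_mul_of_nonneg_left hmN hs0.le
      linarith
    have h2 := mul_le_mul_of_nonneg_left (hsNlog.trans h1) (show 0 ≤ c0 / 16 by positivity)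
    have h3 := mul_le_mul_of_nonneg_right hcrb hU0
    nlinarith
  have hCt : (4 : ℝ) ^ s * (72 * (N : ℝ) ^ 3 / n) ^ (J / 3) ≤
      Real.exp (-(cr * (s * Real.log n))) := by
    refine hfcl.trans (Real.exp_le_exp.2 ?_)
    have h3 := mul_le_mul_of_nonneg_right hcrc hU0
    have h4 : e / 16 / 24 = e / 384 := by ring
    rw [h4]
    linarith
  linarith

/-- **the final step at one middle level** -/
theorem mid_level (k : ℕ) (hk : 0 < k) {ε A ε1 g : ℝ} (hε : 0 < ε) (hA : 0 < A) (hε1 : 0 < ε1)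
    (hg : 0 < g) (hg2 : g < 2) :
    ∃ (q : ℕ) (C ξ : ℝ) (n0 : ℕ), 0 < C ∧ 0 < ξ ∧ ∀ n : ℕ, n0 ≤ n → ∀ z : Fin k → Alt n,
      TupleGap z 2 g → ∀ s t0 : ℕ, (n : ℝ) ^ (1 / 2 : ℝ) ≤ s → ε1 * Real.log n * s ≤ n →
      4 / g * Real.log n + 1 ≤ t0 → (t0 : ℝ) ≤ A * s →
      rp z (2 * t0) s ≤ Real.exp (-(ε * s)) →
      (Nat.card {y : Fin q → Alt n // (n : ℝ) ^ (-(ξ * s)) <
        rp (Fin.append z y) (2 * ⌈C * (s * Real.log n)⌉₊) s} : ℝ) ≤
        Real.exp (-(ξ * (s * Real.log n))) * Fintype.card (Fin q → Alt n) := by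
  classical
  have hNek : Nonempty (Fin k) := ⟨⟨0, hk⟩⟩
  -- constants
  obtain ⟨c0, hc0⟩ : ∃ c0 : ℝ, c0 = min (ε / 4) (1 / 8) := ⟨_, rfl⟩
  have hc00 : 0 < c0 := by rw [hc0]; positivity
  have hc01 : c0 ≤ 1 / 8 := by rw [hc0]; exact min_le_right _ _
  have hc02 : c0 ≤ ε / 4 := by rw [hc0]; exact min_le_left _ _
  obtain ⟨e, he⟩ : ∃ e : ℝ, e = (c0 / 24) ^ 2 := ⟨_, rfl⟩
  have he0 : 0 < e := by rw [he]; positivity
  have he1 : e ≤ 1 := by
    rw [he]
    have h1 : c0 / 24 ≤ 1 := by linarith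
    calc (c0 / 24) ^ 2 ≤ 1 ^ 2 := pow_le_pow_left₀ (by positivity) h1 2
      _ = 1 := by norm_num
  obtain ⟨κ, hκ⟩ : ∃ κ : ℝ, κ = min (c0 / 4) (e / 224 / 4) := ⟨_, rfl⟩
  have hκ0 : 0 < κ := by rw [hκ]; positivity
  have hκ1 : κ ≤ c0 / 4 := by rw [hκ]; exact min_le_left _ _
  have hκ2 : κ ≤ e / 224 / 4 := by rw [hκ]; exact min_le_right _ _
  have hκ3 : κ ≤ 1 / 32 := by linarith
  obtain ⟨c', hc'⟩ : ∃ c' : ℝ, c' = min (κ * ε1) 1 := ⟨_, rfl⟩
  have hc'0 : 0 < c' := by rw [hc']; positivity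
  have hc'1 : c' ≤ 1 := by rw [hc']; exact min_le_right _ _
  have hc'2 : c' ≤ κ * ε1 := by rw [hc']; exact min_le_left _ _
  obtain ⟨θ, hθ⟩ : ∃ θ : ℝ, θ = Real.exp (-(48 / e)) := ⟨_, rfl⟩
  have hθ0 : 0 < θ := by rw [hθ]; exact Real.exp_pos _
  have hθ1 : θ ≤ 1 / 2 := by
    rw [hθ, Real.exp_neg, ← one_div]
    apply one_div_le_one_div_of_le (by norm_num)
    have h1 : 48 ≤ 48 / e := by
      rw [le_div_iff₀ he0]
      nlinarith
    linarith [Real.add_one_le_exp (48 / e)]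
  obtain ⟨q, hq⟩ : ∃ q : ℕ, q = ⌈Real.exp (128 / e)⌉₊ := ⟨_, rfl⟩
  have hq1 : Real.exp (128 / e) ≤ q := by rw [hq]; exact Nat.le_ceil _
  have hq0' : (0 : ℝ) < q := lt_of_lt_of_le (Real.exp_pos _) hq1
  have hq0 : 0 < q := by exact_mod_cast hq0'
  obtain ⟨cr1, hcr1⟩ : ∃ cr1 : ℝ,
      cr1 = min (min (e * (ε / 2) * c' / 64) (c0 * c' / 32)) (e / 384) := ⟨_, rfl⟩
  have hcr10 : 0 < cr1 := by rw [hcr1]; positivity
  obtain ⟨η, ct, ξ, U0, N0', hη, hct, hξ, hU01, hN0'1, hnum⟩ :=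
    fin_num (Fintype.card (Option ((Fin k ⊕ Fin q) × Bool)))
      (Fintype.card_pos_iff.2 ⟨none⟩) (θ := θ)
      (K := 2 * (Fintype.card (Fin k) + q)) (cr := cr1 / 2) (CM := A + 1) (cb := 1)
      (c1 := 1 / 4) (C2 := 4 / g) (cc := e / 1792) hθ0 (by positivity) (by positivity)
      (by positivity) (by norm_num) (by norm_num) (by positivity) (by positivity)
  obtain ⟨ξ', hξ'⟩ : ∃ ξ' : ℝ, ξ' = min ξ (cr1 / 8) := ⟨_, rfl⟩
  have hξ'0 : 0 < ξ' := by rw [hξ']; positivity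
  have hξ'1 : ξ' ≤ ξ := by rw [hξ']; exact min_le_left _ _
  have hξ'2 : ξ' ≤ cr1 / 8 := by rw [hξ']; exact min_le_right _ _
  obtain ⟨nf, hnf⟩ := fcl_le 72 (by norm_num) (j := e / 16) (by positivity)
  obtain ⟨nb, hnb⟩ := Pool.Agent.Helper19.FS.beta_mid (d := e / 224) (by positivity)
  -- the threshold for `log n`
  obtain ⟨T, hT⟩ : ∃ T : ℝ, T = U0 + (N0' + 1) / c' + (16 / e + 1) / c' + 2 / c' +
      2 * (224 / e) + 2 * (6 / (e / 16)) + 2 * (32 / (e * (ε / 2))) + 8 / ε1 + 8 / cr1 +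
      8 * q / cr1 + 1 := ⟨_, rfl⟩
  have p1 : 0 < (N0' + 1) / c' := by positivity
  have p2 : 0 < (16 / e + 1) / c' := by positivity
  have p3 : 0 < 2 / c' := by positivity
  have p4 : 0 < 2 * (224 / e) := by positivity
  have p5 : 0 < 2 * (6 / (e / 16)) := by positivity
  have p6 : 0 < 2 * (32 / (e * (ε / 2))) := by positivity
  have p7 : 0 < 8 / ε1 := by positivity
  have p8 : 0 < 8 / cr1 := by positivity
  have p9 : 0 < 8 * q / cr1 := by positivity
  obtain ⟨nT, hnT⟩ := Filter.eventually_atTop.1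
    ((Real.tendsto_log_atTop.comp tendsto_natCast_atTop_atTop).eventually_ge_atTop T)
  refine ⟨q, ct, ξ', max (max nf nb) (max nT 2), hct, hξ'0, ?_⟩
  intro n hn z hz s t0 hsn hwin ht0 ht0A hrp
  have hn1 : nf ≤ n := ((le_max_left _ _).trans (le_max_left _ _)).trans hn
  have hn2 : nb ≤ n := ((le_max_right _ _).trans (le_max_left _ _)).trans hn
  have hn3 : nT ≤ n := ((le_max_left _ _).trans (le_max_right _ _)).trans hn
  have hn4 : 2 ≤ n := ((le_max_right _ _).trans (le_max_right _ _)).trans hn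
  have hn0 : 0 < n := by omega
  have hn' : (0 : ℝ) < n := by exact_mod_cast hn0
  obtain ⟨lg, hlg⟩ : ∃ lg : ℝ, lg = Real.log n := ⟨_, rfl⟩
  have hTlg : T ≤ lg := by rw [hlg]; exact hnT n hn3
  have hlgpos : 0 < lg := by
    rw [hT] at hTlg
    linarith
  -- `s ≥ log n / 2`
  have hslg : lg / 2 ≤ s := by
    refine le_trans ?_ hsn
    have h1 := Real.log_le_rpow_div hn'.le (show (0 : ℝ) < 1 / 2 by norm_num)
    rw [← hlg] at h1
    linarith
  have hs0 : (0 : ℝ) < s := lt_of_lt_of_le (by positivity) hslg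
  have hs1 : 1 ≤ s := by
    have : 0 < s := by exact_mod_cast hs0
    omega
  have hs1' : (1 : ℝ) ≤ s := by exact_mod_cast hs1
  rw [← hlg] at hwin ht0
  obtain ⟨U, hU⟩ : ∃ U : ℝ, U = s * lg := ⟨_, rfl⟩
  have hUlg : lg ≤ U := by rw [hU]; nlinarith
  have hUpos : 0 < U := lt_of_lt_of_le hlgpos hUlg
  obtain ⟨N, hN⟩ : ∃ N : ℕ, N = ⌊c' * lg⌋₊ := ⟨_, rfl⟩
  have hNle : (N : ℝ) ≤ c' * lg := by rw [hN]; exact Nat.floor_le (by positivity)
  have hNlt : c' * lg < N + 1 := by rw [hN]; exact Nat.lt_floor_add_one _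
  have hTc : ∀ a : ℝ, a / c' ≤ lg → a ≤ c' * lg := fun a ha => by
    rw [div_le_iff₀ hc'0] at ha
    linarith
  have hNa : N0' ≤ N := by
    have := hTc (N0' + 1) (by rw [hT] at hTlg; linarith)
    linarith
  have hNb : 16 / e ≤ N := by
    have := hTc (16 / e + 1) (by rw [hT] at hTlg; linarith)
    linarith
  have hNc : c' / 2 * lg ≤ N := by
    have := hTc 2 (by rw [hT] at hTlg; linarith)
    linarith
  have hNpos : (0 : ℝ) < N := lt_of_lt_of_le (by positivity) hNb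
  have hN1 : 1 ≤ N := by
    have : 0 < N := by exact_mod_cast hNpos
    omega
  have hNlg : (N : ℝ) ≤ lg := hNle.trans (by nlinarith)
  have hsN : (s : ℝ) * N ≤ κ * n := by
    calc (s : ℝ) * N ≤ s * (c' * lg) := mul_le_mul_of_nonneg_left hNle hs0.le
      _ ≤ s * ((κ * ε1) * lg) := by
          apply mul_le_mul_of_nonneg_left _ hs0.le
          exact mul_le_mul_of_nonneg_right hc'2 hlgpos.le
      _ = κ * (ε1 * lg * s) := by ring
      _ ≤ κ * n := mul_le_mul_of_nonneg_left hwin hκ0.le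
  have hs8 : 8 * s ≤ n := by
    have h1 : 8 ≤ ε1 * lg := by
      have h2 : 8 / ε1 ≤ lg := by rw [hT] at hTlg; linarith
      rw [div_le_iff₀ hε1] at h2
      linarith
    have h2 : (8 : ℝ) * s ≤ n := by nlinarith
    exact_mod_cast h2
  have hsn' : s ≤ n := by omega
  have hsa : 224 / e ≤ s := by rw [hT] at hTlg; linarith
  have hsb : 6 / (e / 16) ≤ s := by rw [hT] at hTlg; linarith
  have hsc : 32 / (e * (ε / 2)) ≤ s := by rw [hT] at hTlg; linarith
  -- natural parameters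
  obtain ⟨c, hc⟩ : ∃ c : ℕ, c = ⌊e / 224 * (s : ℝ)⌋₊ + 1 := ⟨_, rfl⟩
  obtain ⟨B, hB⟩ : ∃ B : ℕ, B = ⌊e / 224 * (N : ℝ)⌋₊ := ⟨_, rfl⟩
  obtain ⟨P, hP⟩ : ∃ P : ℕ, P = ⌊e / 32 * (N : ℝ)⌋₊ := ⟨_, rfl⟩
  obtain ⟨J, hJ⟩ : ∃ J : ℕ, J = ⌊e / 16 * (s : ℝ)⌋₊ := ⟨_, rfl⟩
  obtain ⟨N0, hN0⟩ : ∃ N0 : ℕ, N0 = N - ⌊e / 16 * (N : ℝ)⌋₊ := ⟨_, rfl⟩
  obtain ⟨D, hD⟩ : ∃ D : ℕ, D = ⌊e / 16 * (N : ℝ)⌋₊ := ⟨_, rfl⟩
  obtain ⟨f, hf⟩ : ∃ f : ℕ, f = ⌊Real.exp (-c0) * n⌋₊ := ⟨_, rfl⟩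
  obtain ⟨t2, ht2⟩ : ∃ t2 : ℕ, t2 = ⌈4 / g * lg⌉₊ := ⟨_, rfl⟩
  have ht2a : 4 / g * lg ≤ t2 := by rw [ht2]; exact Nat.le_ceil _
  have ht2b : (t2 : ℝ) ≤ 4 / g * lg + 1 := by
    rw [ht2]
    exact (Nat.ceil_lt_add_one (by positivity)).le
  have ht2c : t2 ≤ t0 := by
    have : (t2 : ℝ) ≤ t0 := ht2b.trans ht0
    exact_mod_cast this
  obtain ⟨hnum1, hnum2, hnum3, hnum4⟩ := hnum U lg N ((t0 + 1) * N) t2
    (by rw [hT] at hTlg; linarith) hUlg hNa (by
      push_cast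
      have h1 : (t0 : ℝ) + 1 ≤ (A + 1) * s := by nlinarith
      calc ((t0 : ℝ) + 1) * N ≤ ((A + 1) * s) * lg :=
            mul_le_mul h1 hNlg hNpos.le (by positivity)
        _ = (A + 1) * U := by rw [hU]; ring) ht2b
  obtain ⟨t, ht⟩ : ∃ t : ℕ, t = ⌈ct * U⌉₊ := ⟨_, rfl⟩
  rw [← ht] at hnum1 hnum4
  -- the law of the words
  have hW : Wt (gl (up z)) (1 / 2) (lwt (Fin k) (1 / 2)) :=
    lwt_Wt (up z) (by norm_num) (by norm_num)
  have hμ : ∀ p, 0 ≤ lz0 (up z) t0 p := fun p => law_nn (gl (up z)) hW t0 p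
  have hμ1 : ∑ p, lz0 (up z) t0 p = 1 := law_one (gl (up z)) hW t0
  have hclose : ∀ gp : Fin N → Option (Fin q × Bool), ¬ BadG N0 P gp →
      ∑ y : Fin q → Equiv.Perm (Fin n),
        cloG (lz0 (up z) t0) s (Pool.Agent.Helper73.TP.GBU c B y) gp y ≤
      (3 * Real.exp (-(cr1 * U))) * Fintype.card (Fin s ↪ Fin n) *
        Fintype.card (Fin q → Equiv.Perm (Fin n)) := by
    intro gp hgp
    apply Pool.Agent.Helper73.TP.hg_of
    intro x
    have h1 := mid_closing (c' := c') (κ := κ) (f := f) (D := D) (J := J) hc00 hc01 hε he hκ1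
      hκ3 hn0 (hnf n s N J hn1 hsb (by rw [← hlg]; exact hNlg) hJ) hsa hsc hNb
      (by rw [← hlg]; exact hNc) hc hB hP hJ hN0 hD hf hsN hμ hμ1
      (p1_le hk z s t0 f hc00 hc01 hc02 hf hs8 hn0 hrp) gp hgp x
    rw [← hcr1, ← hlg, ← hU] at h1
    exact h1
  -- the stage theorem
  have hG := Pool.Agent.Helper35.TP.met_unc (s := s) (up z) hq0 hθ0 hθ1 t0 N (by omega) t2 ht2c c B
    ((n : ℝ) ^ (-(1 / 4) : ℝ))
    (hnb n k hn2 hk z g hg hg2 hz s t2 N c (by rw [← hlg]; exact ht2a) hsn' hsn (by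
      rw [hc]
      push_cast
      exact (Nat.lt_floor_add_one _).le) (by
      have h1 := mul_le_mul_of_nonneg_right hκ2 hn'.le
      linarith)) (e / 1792) (by positivity)
    ((2 * (Fintype.card (Fin k) + q)) * (η / θ)) (by
      have h1 : (n : ℝ) ^ (-(1 / 4) : ℝ) = Real.exp (-(1 / 4 * lg)) := by
        rw [Real.rpow_def_of_pos hn', ← hlg]
        congr 1
        ring
      rw [h1]
      exact hnum3) (by
      have h1 : e / 224 * N < (B : ℝ) + 1 := by rw [hB]; exact Nat.lt_floor_add_one _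
      have h2 : 8 * (e / 1792) * (N : ℝ) = e / 224 * N := by ring
      linarith)
  have hbad : ∑ gp : Fin N → Option (Fin q × Bool) with BadG N0 P gp,
      ∏ j, lwt (Fin q) θ (gp j) ≤ Real.exp (-(1 * N)) := by
    refine (badG_le hq0 hθ0 hθ1 N0 P (by omega)).trans ?_
    exact pat_num he0 hN1 hθ (div_nonneg (by linarith) (by positivity)) (by
      rw [div_le_iff₀ (by positivity)]
      have h1 : Real.exp (-(128 / e)) * Real.exp (128 / e) = 1 := by
        rw [← Real.exp_add, neg_add_cancel, Real.exp_zero]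
      have h2 := mul_le_mul_of_nonneg_left hq1 (Real.exp_pos (-(128 / e))).le
      rw [h1] at h2
      nlinarith) hP hN0 he1
  obtain ⟨δ, hδ⟩ : ∃ δ : ℝ, δ = Real.exp (-(cr1 / 4 * U)) := ⟨_, rfl⟩
  have hδ0 : 0 < δ := by rw [hδ]; exact Real.exp_pos _
  have hst := stage_worldG (up z) hq0 hθ0 hθ1 s t0 N (BadG N0 P)
    (fun y x gp A => Pool.Agent.Helper73.TP.GBU c B y x gp A)
    (r := 3 * Real.exp (-(cr1 * U))) (b := Real.exp (-(1 * N))) (η := η) (δ := δ)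
    (ρ := Real.exp (-(cr1 / 2 / 2 * U))) t hδ0 (Real.exp_pos _)
    (fun y v hv hv1 hvd => hG y v hv hv1 hvd) hclose hbad (by positivity) hnum1 hnum2
  have hrδ : 3 * Real.exp (-(cr1 * U)) / δ ≤ Real.exp (-(cr1 / 2 * U)) := by
    rw [div_le_iff₀ hδ0, hδ, ← Real.exp_add]
    have h1 : (3 : ℝ) ≤ Real.exp (cr1 / 4 * U) := by
      have h2 : 8 / cr1 ≤ U := le_trans (by rw [hT] at hTlg; linarith) hUlg
      rw [div_le_iff₀ hcr10] at h2
      linarith [Real.add_one_le_exp (cr1 / 4 * U)]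
    calc 3 * Real.exp (-(cr1 * U)) ≤ Real.exp (cr1 / 4 * U) * Real.exp (-(cr1 * U)) :=
          mul_le_mul_of_nonneg_right h1 (Real.exp_pos _).le
      _ = _ := by
          rw [← Real.exp_add]
          congr 1
          ring
  have hfin := hnum4 (3 * Real.exp (-(cr1 * U)) / δ) (by positivity) hrδ
  -- transfer to the alternating group
  have hXpos : (0 : ℝ) < Fintype.card (Fin s ↪ Fin n) := by
    have : 0 < Fintype.card (Fin s ↪ Fin n) := by
      rw [Fintype.card_embedding_eq, Fintype.card_fin, Fintype.card_fin]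
      exact Nat.pos_of_ne_zero fun h0 => by
        rw [Nat.descFactorial_eq_zero_iff_lt] at h0
        omega
    exact_mod_cast this
  have halt := alt_worlds (q := q) hn4 (fun y => (Real.exp (-(η * t)) +
      4 * t * Real.exp (η * t) * (3 * Real.exp (-(cr1 * U)) / δ /
        Real.exp (-(cr1 / 2 / 2 * U)))) * Fintype.card (Fin s ↪ Fin n) <
      ∑ x, ret (tup (gl (Sum.elim (up z) y)) s) (lwt (Fin k ⊕ Fin q) (1 / 2)) t x) hst
  have hsub : (Nat.card {y : Fin q → Alt n // (n : ℝ) ^ (-(ξ' * s)) <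
        rp (Fin.append z y) (2 * ⌈ct * (s * Real.log n)⌉₊) s} : ℝ) ≤
      ((univ.filter fun y : Fin q → Alt n => (Real.exp (-(η * t)) +
      4 * t * Real.exp (η * t) * (3 * Real.exp (-(cr1 * U)) / δ /
        Real.exp (-(cr1 / 2 / 2 * U)))) * Fintype.card (Fin s ↪ Fin n) <
      ∑ x, ret (tup (gl (Sum.elim (up z) (up y))) s)
        (lwt (Fin k ⊕ Fin q) (1 / 2)) t x).card : ℝ) := by
    rw [Nat.card_eq_fintype_card, Fintype.card_subtype]
    have hsub' : (univ.filter fun y : Fin q → Alt n => (n : ℝ) ^ (-(ξ' * s)) <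
        rp (Fin.append z y) (2 * ⌈ct * (s * Real.log n)⌉₊) s) ⊆
        univ.filter fun y : Fin q → Alt n => (Real.exp (-(η * t)) +
      4 * t * Real.exp (η * t) * (3 * Real.exp (-(cr1 * U)) / δ /
        Real.exp (-(cr1 / 2 / 2 * U)))) * Fintype.card (Fin s ↪ Fin n) <
      ∑ x, ret (tup (gl (Sum.elim (up z) (up y))) s)
        (lwt (Fin k ⊕ Fin q) (1 / 2)) t x := by
      intro y hy
      rw [mem_filter] at hy ⊢
      refine ⟨mem_univ _, ?_⟩
      rw [ret_rp hk z y s t]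
      apply mul_lt_mul_of_pos_right _ hXpos
      refine lt_of_le_of_lt hfin ?_
      have h1 := hy.2
      rw [← hlg, ← hU, ← ht] at h1
      refine lt_of_le_of_lt ?_ h1
      have h2 : (n : ℝ) ^ (-(ξ' * s)) = Real.exp (-(ξ' * U)) := by
        rw [Real.rpow_def_of_pos hn', ← hlg, hU]
        congr 1
        ring
      rw [h2]
      apply Real.exp_le_exp.2
      have := mul_le_mul_of_nonneg_right hξ'1 hUpos.le
      linarith
    exact_mod_cast card_le_card hsub'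
  refine hsub.trans (halt.trans ?_)
  apply mul_le_mul_of_nonneg_right _ (Nat.cast_nonneg _)
  rw [← hlg, ← hU, hδ]
  have h1 : (2 : ℝ) ^ q ≤ Real.exp (cr1 / 8 * U) := by
    calc (2 : ℝ) ^ q ≤ (Real.exp 1) ^ q := by
          apply pow_le_pow_left₀ (by norm_num)
          linarith [Real.add_one_le_exp (1 : ℝ)]
      _ = Real.exp (q * 1) := (Real.exp_nat_mul _ _).symm
      _ ≤ _ := by
          apply Real.exp_le_exp.2
          have h2 : 8 * q / cr1 ≤ U := le_trans (by rw [hT] at hTlg; linarith) hUlg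
          rw [div_le_iff₀ hcr10] at h2
          linarith
  calc (2 : ℝ) ^ q * Real.exp (-(cr1 / 4 * U)) ≤
        Real.exp (cr1 / 8 * U) * Real.exp (-(cr1 / 4 * U)) :=
        mul_le_mul_of_nonneg_right h1 (Real.exp_pos _).le
    _ ≤ _ := by
        rw [← Real.exp_add]
        apply Real.exp_le_exp.2
        have := mul_le_mul_of_nonneg_right hξ'2 hUpos.le
        linarith

end Pool.Agent.Helper27.FS
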