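import Mathlib

/-!
# Numbers of the final step (project FS, MP_75608d_al)

`fin_num`: the constants `η`, `ct`, `ξ` of the stage theorem with a path event, for
`U = s log n` and `lg = log n`.
-/

set_option autoImplicit false

namespace Pool.Agent.Helper27.FS

open Real

theorem fin_num (ℓ : ℕ) (hℓ : 1 ≤ ℓ) {θ K cr CM cb c1 C2 cc : ℝ} (hθ : 0 < θ) (hK : 0 ≤ K)
    (hcr : 0 < cr) (hCM : 0 < CM) (hcb : 0 < cb) (hc1 : 0 < c1) (hC2 : 0 < C2) (hcc : 0 < cc) :
    ∃ η ct ξ U0 N0 : ℝ, 0 < η ∧ 0 < ct ∧ 0 < ξ ∧ 1 ≤ U0 ∧ 1 ≤ N0 ∧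
      ∀ (U lg : ℝ) (N M t2 : ℕ), U0 ≤ lg → lg ≤ U → N0 ≤ N → (M : ℝ) ≤ CM * U →
        (t2 : ℝ) ≤ C2 * lg + 1 →
        (ℓ : ℝ) ^ ⌈ct * U⌉₊ * Real.sqrt (Real.exp (-(cr / 2 * U))) <
            1 / 4 * Real.exp (-(4 * (4 * (1 + 1 / θ) * (M * (K * (η / θ))) + 1))) ∧
        Real.exp (-(cb * N)) ≤ Real.exp (-(4 * (4 * (1 + 1 / θ) * (N * (K * (η / θ))) + 2))) ∧
        Real.exp (-(c1 * lg)) < cc * Real.exp (-((4 * (1 + 1 / θ) *
            (t2 * (K * (η / θ))) + 1) / cc)) ∧
        (∀ r : ℝ, 0 ≤ r → r ≤ Real.exp (-(cr * U)) →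
          Real.exp (-(η * ⌈ct * U⌉₊)) + 4 * ⌈ct * U⌉₊ * Real.exp (η * ⌈ct * U⌉₊) *
            (r / Real.exp (-(cr / 2 * U))) ≤ Real.exp (-(ξ * U))) := by
  -- constants
  obtain ⟨lam, hlam⟩ : ∃ lam : ℝ, lam = Real.log ℓ := ⟨_, rfl⟩
  have hℓ' : (1 : ℝ) ≤ ℓ := by exact_mod_cast hℓ
  have hlam0 : 0 ≤ lam := by rw [hlam]; exact Real.log_nonneg hℓ'
  obtain ⟨A, hA⟩ : ∃ A : ℝ, A = 1 + 1 / θ := ⟨_, rfl⟩
  have hA1 : 1 < A := by
    rw [hA]
    have : 0 < 1 / θ := by positivity
    linarith
  have hA0 : 0 < A := by linarith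
  obtain ⟨B0, hB0⟩ : ∃ B0 : ℝ, B0 = min (min (cr / (512 * A * CM)) (cb / (32 * A)))
    (min (c1 * cc / (8 * A * C2)) 1) := ⟨_, rfl⟩
  have hB0p : 0 < B0 := by rw [hB0]; positivity
  have hBa : B0 ≤ cr / (512 * A * CM) := by
    rw [hB0]; exact (min_le_left _ _).trans (min_le_left _ _)
  have hBb : B0 ≤ cb / (32 * A) := by
    rw [hB0]; exact (min_le_left _ _).trans (min_le_right _ _)
  have hBc : B0 ≤ c1 * cc / (8 * A * C2) := by
    rw [hB0]; exact (min_le_right _ _).trans (min_le_left _ _)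
  have hBd : B0 ≤ 1 := by
    rw [hB0]; exact (min_le_right _ _).trans (min_le_right _ _)
  obtain ⟨η, hη⟩ : ∃ η : ℝ, η = min (θ * B0 / (K + 1)) 1 := ⟨_, rfl⟩
  have hη0 : 0 < η := by rw [hη]; positivity
  have hη1 : η ≤ 1 := by rw [hη]; exact min_le_right _ _
  have hBB : K * (η / θ) ≤ B0 := by
    have h1 : η ≤ θ * B0 / (K + 1) := by rw [hη]; exact min_le_left _ _
    have h2 : η / θ ≤ B0 / (K + 1) := by
      rw [div_le_iff₀ hθ]
      calc η ≤ θ * B0 / (K + 1) := h1
        _ = B0 / (K + 1) * θ := by ring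
    calc K * (η / θ) ≤ K * (B0 / (K + 1)) := mul_le_mul_of_nonneg_left h2 hK
      _ = B0 * (K / (K + 1)) := by ring
      _ ≤ B0 * 1 := by
          apply mul_le_mul_of_nonneg_left _ hB0p.le
          rw [div_le_one (by positivity)]
          linarith
      _ = B0 := mul_one _
  have hBB0 : 0 ≤ K * (η / θ) := by positivity
  obtain ⟨ct, hct⟩ : ∃ ct : ℝ, ct = min (cr / (32 * (lam + 1))) (cr / 32) := ⟨_, rfl⟩
  have hct0 : 0 < ct := by rw [hct]; positivity
  have hct1 : lam * ct ≤ cr / 32 := by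
    have h1 : ct ≤ cr / (32 * (lam + 1)) := by rw [hct]; exact min_le_left _ _
    calc lam * ct ≤ (lam + 1) * (cr / (32 * (lam + 1))) := by
          apply mul_le_mul (by linarith) h1 hct0.le (by linarith)
      _ = cr / 32 := by field_simp
  have hct2 : ct ≤ cr / 32 := by rw [hct]; exact min_le_right _ _
  obtain ⟨ξ, hξ⟩ : ∃ ξ : ℝ, ξ = min (η * ct / 2) (cr / 8) := ⟨_, rfl⟩
  have hξ0 : 0 < ξ := by rw [hξ]; positivity
  have hξ1 : ξ ≤ η * ct / 2 := by rw [hξ]; exact min_le_left _ _
  have hξ2 : ξ ≤ cr / 8 := by rw [hξ]; exact min_le_right _ _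
  -- thresholds
  obtain ⟨U0, hU0⟩ : ∃ U0 : ℝ, U0 = 1 + (lam + 8) * 16 / cr + 4 * (1 + Real.log (2 / cc + 2) +
      (4 * A + 1) / cc) / c1 + 4 / (η * ct) + (64 + 128 / cr) / cr + 1 / ct := ⟨_, rfl⟩
  have hlog2 : 0 ≤ Real.log (2 / cc + 2) := Real.log_nonneg (by
    have : 0 < 2 / cc := by positivity
    linarith)
  have hU01 : 1 ≤ U0 := by
    rw [hU0]
    have h1 : 0 ≤ (lam + 8) * 16 / cr := by positivity
    have h2 : 0 ≤ 4 * (1 + Real.log (2 / cc + 2) + (4 * A + 1) / cc) / c1 := by positivity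
    have h3 : 0 ≤ 4 / (η * ct) := by positivity
    have h4 : 0 ≤ (64 + 128 / cr) / cr := by positivity
    have h5 : 0 ≤ 1 / ct := by positivity
    linarith
  have hUa : (lam + 8) * 16 / cr ≤ U0 := by
    rw [hU0]
    have h2 : 0 ≤ 4 * (1 + Real.log (2 / cc + 2) + (4 * A + 1) / cc) / c1 := by positivity
    have h3 : 0 ≤ 4 / (η * ct) := by positivity
    have h4 : 0 ≤ (64 + 128 / cr) / cr := by positivity
    have h5 : 0 ≤ 1 / ct := by positivity
    linarith
  have hUb : 4 * (1 + Real.log (2 / cc + 2) + (4 * A + 1) / cc) / c1 ≤ U0 := by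
    rw [hU0]
    have h1 : 0 ≤ (lam + 8) * 16 / cr := by positivity
    have h3 : 0 ≤ 4 / (η * ct) := by positivity
    have h4 : 0 ≤ (64 + 128 / cr) / cr := by positivity
    have h5 : 0 ≤ 1 / ct := by positivity
    linarith
  have hUc : 4 / (η * ct) ≤ U0 := by
    rw [hU0]
    have h1 : 0 ≤ (lam + 8) * 16 / cr := by positivity
    have h2 : 0 ≤ 4 * (1 + Real.log (2 / cc + 2) + (4 * A + 1) / cc) / c1 := by positivity
    have h4 : 0 ≤ (64 + 128 / cr) / cr := by positivity
    have h5 : 0 ≤ 1 / ct := by positivity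
    linarith
  have hUd : (64 + 128 / cr) / cr ≤ U0 := by
    rw [hU0]
    have h1 : 0 ≤ (lam + 8) * 16 / cr := by positivity
    have h2 : 0 ≤ 4 * (1 + Real.log (2 / cc + 2) + (4 * A + 1) / cc) / c1 := by positivity
    have h3 : 0 ≤ 4 / (η * ct) := by positivity
    have h5 : 0 ≤ 1 / ct := by positivity
    linarith
  have hUe : 1 / ct ≤ U0 := by
    rw [hU0]
    have h1 : 0 ≤ (lam + 8) * 16 / cr := by positivity
    have h2 : 0 ≤ 4 * (1 + Real.log (2 / cc + 2) + (4 * A + 1) / cc) / c1 := by positivity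
    have h3 : 0 ≤ 4 / (η * ct) := by positivity
    have h4 : 0 ≤ (64 + 128 / cr) / cr := by positivity
    linarith
  refine ⟨η, ct, ξ, U0, 1 + 16 / cb, hη0, hct0, hξ0, hU01, ?_, ?_⟩
  · have : 0 < 16 / cb := by positivity
    linarith
  intro U lg N M t2 hlg hU hN hM ht2
  have hUU : U0 ≤ U := hlg.trans hU
  have hUpos : 0 < U := by linarith
  obtain ⟨t, ht⟩ : ∃ t : ℕ, t = ⌈ct * U⌉₊ := ⟨_, rfl⟩
  rw [← ht]
  have ht1 : (t : ℝ) ≤ ct * U + 1 := by
    rw [ht]
    exact (Nat.ceil_lt_add_one (by positivity)).le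
  have ht0 : ct * U ≤ t := by
    rw [ht]
    exact Nat.le_ceil _
  have htpos : (0 : ℝ) < t := lt_of_lt_of_le (by positivity) ht0
  rw [← hA]
  refine ⟨?_, ?_, ?_, ?_⟩
  · -- (i)
    have h1 : (ℓ : ℝ) ^ t = Real.exp (lam * t) := by
      rw [hlam, mul_comm, Real.exp_nat_mul, Real.exp_log (by linarith)]
    have h2 : Real.sqrt (Real.exp (-(cr / 2 * U))) = Real.exp (-(cr / 4 * U)) := by
      rw [← Real.exp_half]
      congr 1
      ring
    rw [h1, h2, ← Real.exp_add]
    have h3 : (1 : ℝ) / 4 * Real.exp (-(4 * (4 * A * (M * (K * (η / θ))) + 1))) ≥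
        Real.exp (-(16 * A * (M * (K * (η / θ))) + 6)) := by
      have h4 : Real.exp (-2 : ℝ) ≤ 1 / 4 := by
        rw [Real.exp_neg, ← one_div]
        apply one_div_le_one_div_of_le (by norm_num)
        have h5 : Real.exp 1 ^ 2 = Real.exp 2 := by
          rw [← Real.exp_nat_mul]
          norm_num
        rw [← h5]
        have h6 := Real.add_one_le_exp (1 : ℝ)
        nlinarith
      have h5 : Real.exp (-(16 * A * (M * (K * (η / θ))) + 6)) =
          Real.exp (-2) * Real.exp (-(4 * (4 * A * (M * (K * (η / θ))) + 1))) := by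
        rw [← Real.exp_add]
        congr 1
        ring
      rw [h5]
      exact mul_le_mul_of_nonneg_right h4 (Real.exp_pos _).le
    refine lt_of_lt_of_le ?_ h3
    apply Real.exp_lt_exp.2
    have h4 : 16 * A * (M * (K * (η / θ))) ≤ cr / 32 * U := by
      calc 16 * A * (M * (K * (η / θ))) ≤ 16 * A * ((CM * U) * (cr / (512 * A * CM))) := by
            apply mul_le_mul_of_nonneg_left _ (by positivity)
            exact mul_le_mul hM (hBB.trans hBa) hBB0 (by positivity)
        _ = cr / 32 * U := by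
            field_simp
            norm_num
    have h5 : lam * t ≤ cr / 32 * U + lam := by
      calc lam * t ≤ lam * (ct * U + 1) := mul_le_mul_of_nonneg_left ht1 hlam0
        _ = (lam * ct) * U + lam := by ring
        _ ≤ cr / 32 * U + lam := by
            have := mul_le_mul_of_nonneg_right hct1 hUpos.le
            linarith
    have h6 : (lam + 8) * 16 ≤ cr * U := by
      have := hUa.trans hUU
      rw [div_le_iff₀ hcr] at this
      linarith
    nlinarith
  · -- (ii)
    apply Real.exp_le_exp.2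
    have h1 : 16 * A * (N * (K * (η / θ))) ≤ cb / 2 * N := by
      calc 16 * A * (N * (K * (η / θ))) ≤ 16 * A * (N * (cb / (32 * A))) := by
            apply mul_le_mul_of_nonneg_left _ (by positivity)
            exact mul_le_mul_of_nonneg_left (hBB.trans hBb) (Nat.cast_nonneg _)
        _ = cb / 2 * N := by
            field_simp
            ring
    have h2 : 16 / cb ≤ N := by linarith
    rw [div_le_iff₀ hcb] at h2
    nlinarith
  · -- (iii)
    have hlg0 : 0 < lg := by linarith
    have h1 : (4 * A * (t2 * (K * (η / θ))) + 1) / cc ≤ c1 / 2 * lg + (4 * A + 1) / cc := by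
      rw [div_le_iff₀ hcc]
      have h2 : (c1 / 2 * lg + (4 * A + 1) / cc) * cc = c1 * cc / 2 * lg + (4 * A + 1) := by
        field_simp
      rw [h2]
      have h3 : 4 * A * (t2 * (K * (η / θ))) ≤ 4 * A * ((C2 * lg) * (c1 * cc / (8 * A * C2)) + 1) := by
        apply mul_le_mul_of_nonneg_left _ (by positivity)
        calc (t2 : ℝ) * (K * (η / θ)) ≤ (C2 * lg + 1) * (K * (η / θ)) :=
              mul_le_mul_of_nonneg_right ht2 hBB0
          _ = (C2 * lg) * (K * (η / θ)) + K * (η / θ) := by ring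
          _ ≤ (C2 * lg) * (c1 * cc / (8 * A * C2)) + 1 := by
              apply add_le_add
              · exact mul_le_mul_of_nonneg_left (hBB.trans hBc) (by positivity)
              · exact hBB.trans hBd
      have h4 : 4 * A * ((C2 * lg) * (c1 * cc / (8 * A * C2)) + 1) = c1 * cc / 2 * lg + 4 * A := by
        field_simp
        ring
      rw [h4] at h3
      linarith
    have h2 : Real.exp (-(c1 / 2 * lg + (4 * A + 1) / cc)) ≤
        Real.exp (-((4 * A * (t2 * (K * (η / θ))) + 1) / cc)) :=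
      Real.exp_le_exp.2 (by linarith)
    refine lt_of_lt_of_le ?_ (mul_le_mul_of_nonneg_left h2 hcc.le)
    have h3 : Real.exp (-(Real.log (2 / cc + 2))) < cc := by
      rw [Real.exp_neg, Real.exp_log (by positivity)]
      rw [inv_lt_comm₀ (by positivity) hcc]
      rw [← one_div]
      have h4 : 1 / cc < 2 / cc := by
        apply div_lt_div_of_pos_right _ hcc
        norm_num
      linarith
    have h4 : Real.exp (-(c1 * lg)) ≤ Real.exp (-(Real.log (2 / cc + 2))) *
        Real.exp (-(c1 / 2 * lg + (4 * A + 1) / cc)) := by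
      rw [← Real.exp_add]
      apply Real.exp_le_exp.2
      have h5 : 4 * (1 + Real.log (2 / cc + 2) + (4 * A + 1) / cc) ≤ c1 * lg := by
        have := hUb.trans hlg
        rw [div_le_iff₀ hc1] at this
        linarith
      have h6 : 0 ≤ (4 * A + 1) / cc := by positivity
      linarith
    refine lt_of_le_of_lt h4 ?_
    exact mul_lt_mul_of_pos_right h3 (Real.exp_pos _)
  · -- (iv)
    intro r hr0 hr
    have h1 : r / Real.exp (-(cr / 2 * U)) ≤ Real.exp (-(cr / 2 * U)) := by
      rw [div_le_iff₀ (Real.exp_pos _), ← Real.exp_add]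
      refine hr.trans (Real.exp_le_exp.2 ?_)
      linarith
    have h2 : η * t ≤ cr / 32 * U + 1 := by
      calc η * t ≤ 1 * (ct * U + 1) := mul_le_mul hη1 ht1 htpos.le (by norm_num)
        _ = ct * U + 1 := one_mul _
        _ ≤ cr / 32 * U + 1 := by
            have := mul_le_mul_of_nonneg_right hct2 hUpos.le
            linarith
    have h3 : Real.exp (-(η * t)) ≤ 1 / 2 * Real.exp (-(ξ * U)) := by
      have h4 : Real.exp (-1 : ℝ) ≤ 1 / 2 := by
        rw [Real.exp_neg, ← one_div]
        apply one_div_le_one_div_of_le (by norm_num)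
        linarith [Real.add_one_le_exp (1 : ℝ)]
      have h5 : Real.exp (-(η * t)) ≤ Real.exp (-1) * Real.exp (-(ξ * U)) := by
        rw [← Real.exp_add]
        apply Real.exp_le_exp.2
        have h6 : η * ct * U ≤ η * t := by
          rw [mul_assoc]
          exact mul_le_mul_of_nonneg_left ht0 hη0.le
        have h7 : ξ * U ≤ η * ct / 2 * U := mul_le_mul_of_nonneg_right hξ1 hUpos.le
        have h8 : 4 ≤ η * ct * U := by
          have := hUc.trans hUU
          rw [div_le_iff₀ (by positivity)] at this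
          linarith
        linarith
      exact h5.trans (mul_le_mul_of_nonneg_right h4 (Real.exp_pos _).le)
    have h4 : 4 * (t : ℝ) * Real.exp (η * t) * (r / Real.exp (-(cr / 2 * U))) ≤
        1 / 2 * Real.exp (-(ξ * U)) := by
      have h5 : 4 * (t : ℝ) * Real.exp (η * t) * (r / Real.exp (-(cr / 2 * U))) ≤
          4 * (t : ℝ) * Real.exp (cr / 32 * U + 1) * Real.exp (-(cr / 2 * U)) := by
        apply mul_le_mul _ h1 (by positivity) (by positivity)
        apply mul_le_mul_of_nonneg_left (Real.exp_le_exp.2 h2) (by positivity)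
      refine h5.trans ?_
      have h6 : (t : ℝ) ≤ Real.exp (cr / 32 * U + 1) := by
        calc (t : ℝ) ≤ ct * U + 1 := ht1
          _ ≤ cr / 32 * U + 1 := by
              have := mul_le_mul_of_nonneg_right hct2 hUpos.le
              linarith
          _ ≤ (cr / 32 * U + 1) + 1 := by linarith
          _ ≤ Real.exp (cr / 32 * U + 1) := Real.add_one_le_exp _
      have h7 : (8 : ℝ) ≤ Real.exp 3 := by
        have h8 : Real.exp 1 ^ 3 = Real.exp 3 := by
          rw [← Real.exp_nat_mul]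
          norm_num
        rw [← h8]
        have h9 : (2 : ℝ) ≤ Real.exp 1 := by linarith [Real.add_one_le_exp (1 : ℝ)]
        calc (8 : ℝ) = 2 ^ 3 := by norm_num
          _ ≤ Real.exp 1 ^ 3 := pow_le_pow_left₀ (by norm_num) h9 3
      calc 4 * (t : ℝ) * Real.exp (cr / 32 * U + 1) * Real.exp (-(cr / 2 * U)) ≤
            4 * Real.exp (cr / 32 * U + 1) * Real.exp (cr / 32 * U + 1) *
              Real.exp (-(cr / 2 * U)) := by
            apply mul_le_mul_of_nonneg_right _ (Real.exp_pos _).le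
            apply mul_le_mul_of_nonneg_right _ (Real.exp_pos _).le
            linarith
        _ = 1 / 2 * (8 * (Real.exp (cr / 32 * U + 1) * Real.exp (cr / 32 * U + 1) *
              Real.exp (-(cr / 2 * U)))) := by ring
        _ ≤ 1 / 2 * (Real.exp 3 * (Real.exp (cr / 32 * U + 1) * Real.exp (cr / 32 * U + 1) *
              Real.exp (-(cr / 2 * U)))) := by
            apply mul_le_mul_of_nonneg_left _ (by norm_num)
            exact mul_le_mul_of_nonneg_right h7 (by positivity)
        _ ≤ 1 / 2 * Real.exp (-(ξ * U)) := by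
            apply mul_le_mul_of_nonneg_left _ (by norm_num)
            rw [← Real.exp_add, ← Real.exp_add, ← Real.exp_add]
            apply Real.exp_le_exp.2
            have h8 : ξ * U ≤ cr / 8 * U := mul_le_mul_of_nonneg_right hξ2 hUpos.le
            have h9 : 64 ≤ cr * U := by
              have := hUd.trans hUU
              rw [div_le_iff₀ hcr] at this
              have h10 : 0 < 128 / cr := by positivity
              linarith
            linarith
    linarith

end Pool.Agent.Helper27.FS
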